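import Pool.Agent.R479.DK.Dir

/-!
# Dirichlet's theorem at a real place, in terms of heights
-/

set_option autoImplicit false

namespace Pool.Agent.R479.DK

open NumberField InfinitePlace Finset Height

variable {K : Type} [Field K] [NumberField K]

/-- the height of a quotient of integers -/
theorem height_quot (w0 : InfinitePlace K) (hm : w0.mult = 1) (a b : 𝓞 K) (hb : b ≠ 0) {U : ℝ}
    (hU : max (w0 (a : K)) (w0 (b : K)) ≤ U)
    (h : ∀ w : InfinitePlace K, w ≠ w0 → w (a : K) < 1 ∧ w (b : K) < 1) :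
    mulHeight₁ ((a : K) / (b : K)) ≤ U := by
  classical
  have hne : (![a, b] : Fin 2 → 𝓞 K) ≠ 0 := by
    intro h
    exact hb (by simpa using congrFun h 1)
  have hne' : (fun i => ((![a, b] : Fin 2 → 𝓞 K) i : K)) ≠ 0 := by
    intro h
    apply hb
    have := congrFun h 1
    simpa using this
  have hvec : (![(a : K), (b : K)] : Fin 2 → K) = fun i => ((![a, b] : Fin 2 → 𝓞 K) i : K) := by
    funext i
    fin_cases i <;> rfl
  rw [mulHeight₁_div_eq_mulHeight, hvec, NumberField.mulHeight_eq hne']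
  have h1 := absNorm_mul_finprod_finitePlace_eq_one (K := K) hne
  set N : ℝ := (((Ideal.span (Set.range (![a, b] : Fin 2 → 𝓞 K))).absNorm : ℕ) : ℝ) with hN
  set D := ∏ᶠ v : FinitePlace K, ⨆ i, v (((![a, b] : Fin 2 → 𝓞 K) i : K)) with hD
  have hN0 : 0 ≤ N := by positivity
  have hN1 : 1 ≤ N := by
    rw [hN]
    by_contra h
    push Not at h
    have h3 : ((Ideal.span (Set.range (![a, b] : Fin 2 → 𝓞 K))).absNorm : ℕ) = 0 := by
      have : ((Ideal.span (Set.range (![a, b] : Fin 2 → 𝓞 K))).absNorm : ℕ) < 1 := by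
        exact_mod_cast h
      omega
    rw [hN, h3] at h1
    simp at h1
  have hD0 : 0 ≤ D := finprod_nonneg fun v => Real.iSup_nonneg fun i => apply_nonneg _ _
  have hD1 : D ≤ 1 := by nlinarith
  have hU0 : 0 ≤ U := le_trans (le_trans (apply_nonneg _ _) (le_max_left _ _)) hU
  have h2 : ∏ v : InfinitePlace K, (⨆ i, v (((![a, b] : Fin 2 → 𝓞 K) i : K))) ^ v.mult ≤ U := by
    rw [← Finset.mul_prod_erase _ _ (Finset.mem_univ w0), hm, pow_one]
    have h3 : (⨆ i, w0 (((![a, b] : Fin 2 → 𝓞 K) i : K))) ≤ U := by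
      refine ciSup_le fun i => ?_
      fin_cases i
      · exact (le_max_left _ _).trans hU
      · exact (le_max_right _ _).trans hU
    have h4 : ∏ v ∈ Finset.univ.erase w0,
        (⨆ i, v (((![a, b] : Fin 2 → 𝓞 K) i : K))) ^ v.mult ≤ 1 := by
      refine Finset.prod_le_one (fun v _ => pow_nonneg (Real.iSup_nonneg fun i =>
        apply_nonneg _ _) _) fun v hv => ?_
      refine pow_le_one₀ (Real.iSup_nonneg fun i => apply_nonneg _ _) (ciSup_le fun i => ?_)
      have h5 := h v (Finset.ne_of_mem_erase hv)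
      fin_cases i
      · exact h5.1.le
      · exact h5.2.le
    calc _ ≤ U * 1 := mul_le_mul h3 h4 (Finset.prod_nonneg fun v _ =>
          pow_nonneg (Real.iSup_nonneg fun i => apply_nonneg _ _) _) hU0
      _ = U := mul_one _
  calc _ ≤ U * 1 := mul_le_mul h2 hD1 hD0 hU0
    _ = U := mul_one _

/-- **Dirichlet's theorem at a real place**, with heights. -/
theorem dirichlet_y (σ : K →+* ℝ) (w0 : InfinitePlace K) (hw0 : ∀ x : K, w0 x = |σ x|)
    (hm : w0.mult = 1) : ∃ C : ℝ, 1 ≤ C ∧ ∀ ζ : ℝ, |ζ| ≤ 1 → ∀ Q : ℝ, 1 ≤ Q →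
      ∃ y : K, mulHeight₁ y ≤ C * Q ∧ |ζ - σ y| ≤ C / (Q * mulHeight₁ y) := by
  obtain ⟨C, hC, h⟩ := dirichlet σ w0 hw0 hm
  refine ⟨2 * C, by linarith, fun ζ hζ Q hQ => ?_⟩
  obtain ⟨a, b, h1, h2, h3, h4⟩ := h ζ hζ Q hQ
  have hQ0 : 0 < Q := by linarith
  have hb0 : b ≠ 0 := by
    rintro rfl
    have h5 : ((0 : 𝓞 K) : K) = 0 := map_zero (algebraMap (𝓞 K) K)
    rw [h5, map_zero, abs_zero] at h1
    linarith
  have hσb : σ (b : K) ≠ 0 := by
    intro h5
    rw [h5, abs_zero] at h1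
    linarith
  have hbpos : 0 < |σ (b : K)| := by linarith
  have hσa : |σ (a : K)| ≤ 2 * |σ (b : K)| := by
    have h5 : σ (a : K) = (σ (a : K) - ζ * σ (b : K)) + ζ * σ (b : K) := by ring
    have h6 : 1 / Q ≤ 1 := by
      rw [div_le_one hQ0]
      exact hQ
    rw [h5]
    refine (abs_add_le _ _).trans ?_
    rw [abs_mul]
    nlinarith [abs_nonneg (σ (b : K)), abs_nonneg ζ]
  have hH : mulHeight₁ ((a : K) / (b : K)) ≤ 2 * |σ (b : K)| := by
    refine height_quot w0 hm a b hb0 ?_ h4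
    rw [hw0, hw0]
    exact max_le hσa (by linarith)
  refine ⟨(a : K) / (b : K), ?_, ?_⟩
  · calc _ ≤ 2 * |σ (b : K)| := hH
      _ ≤ 2 * (C * Q) := by gcongr
      _ = 2 * C * Q := by ring
  · have hHpos : 0 < mulHeight₁ ((a : K) / (b : K)) := mulHeight₁_pos _
    have e1 : ζ - σ ((a : K) / (b : K)) = -(σ (a : K) - ζ * σ (b : K)) / σ (b : K) := by
      rw [map_div₀]
      field_simp
      ring
    rw [e1, abs_div, abs_neg, div_le_div_iff₀ hbpos (mul_pos hQ0 hHpos)]
    have h5 : |σ (a : K) - ζ * σ (b : K)| * Q ≤ 1 := by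
      rw [lt_div_iff₀ hQ0] at h3
      linarith
    calc |σ (a : K) - ζ * σ (b : K)| * (Q * mulHeight₁ ((a : K) / (b : K)))
        = (|σ (a : K) - ζ * σ (b : K)| * Q) * mulHeight₁ ((a : K) / (b : K)) := by ring
      _ ≤ 1 * (2 * |σ (b : K)|) := mul_le_mul h5 hH hHpos.le zero_le_one
      _ ≤ 2 * C * |σ (b : K)| := by nlinarith

end Pool.Agent.R479.DK
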