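import Pool.Agent.R479.DK.Sum
import Pool.Agent.R479.DB.Exact2

/-!
# Almost every number has good approximations at every level
-/

set_option autoImplicit false

namespace Pool.Agent.R479.DK

open NumberField IsDedekindDomain Finset Height MeasureTheory Filter Topology
open Pool.Agent.H691R3 Pool.Agent.W221.Exc
open Pool.Agent.R479.DB (xp ex mb)
open scoped ENNReal NNReal

variable {K : Type} [Field K] [NumberField K]

/-- the level `m` multiple of `z` -/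
noncomputable def yz (m n : ℕ) (z : K) : K := ((2 : ℕ) : K) ^ m / ((3 : ℕ) : K) ^ n * z

theorem sigma_yz (σ : K →+* ℝ) (m n : ℕ) (z : K) : σ (yz m n z) = 2 ^ m / 3 ^ n * σ z := by
  unfold yz
  rw [map_mul, map_div₀, map_pow, map_pow, map_natCast, map_natCast]
  push_cast
  rfl

theorem height_yz {m n : ℕ} (h : 3 ^ n ≤ 2 ^ m) (z : K) :
    mulHeight₁ (yz m n z) ≤ ((2 : ℝ) ^ m) ^ Module.finrank ℚ K * mulHeight₁ z := by
  unfold yz
  refine (mulHeight₁_mul_le _ _).trans ?_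
  have h1 := mulHeight₁_ratio (K := K) (p := 2 ^ m) (l := 3 ^ n) (by positivity) ((2 : ℝ) ^ m)
    (by push_cast; exact le_rfl) (by exact_mod_cast h)
  rw [Nat.cast_pow, Nat.cast_pow] at h1
  have h2 := mulHeight₁_pos z
  gcongr

theorem NTc_yz {q : ℕ} (T : Set (HeightOneSpectrum (𝓞 K))) (α : Fin q → K × K)
    (hα0 : ∀ l, α l ≠ 0) (hα : ∀ i j, i ≠ j → wg (α i) (α j) ≠ 0) (l1 l2 : Fin q) (hl12 : l1 ≠ l2) :
    ∃ C3 : ℝ, ∀ (m n : ℕ) (z : K), z ≠ 0 →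
      (pt (α l1) (α l2) (yz m n z)).2 ≠ 0 → Off α (xp (α l1) (α l2) (yz m n z)) →
      NTc T α (xp (α l1) (α l2) (yz m n z)) ≤
        q * hr (aff (xp (α l1) (α l2) (yz m n z))) + C3 -
          Module.finrank ℚ K * (m * Real.log 2 + n * Real.log 3) + GG z := by
  classical
  set r1 := α l1 with hr1
  set r2 := α l2 with hr2
  have h12 : wg r1 r2 ≠ 0 := hα l1 l2 hl12
  set c : HeightOneSpectrum (𝓞 K) → ℝ := fun v => Real.log (nrm (fv v) r1) -
    Real.log (nrm (fv v) r2) with hc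
  refine ⟨q * lossK K + ∑ l, hr (α l) - ∑ v ∈ Vp K 2 two_ne_zero, c v +
    ∑ v ∈ Vp K 3 three_ne_zero, c v + ∑ v ∈ Vp K 2 two_ne_zero, Real.log (Nv v) +
    ∑ v ∈ Vp K 3 three_ne_zero, Real.log (Nv v), ?_⟩
  intro m n z hz hpt hoff
  have h2K : ((2 : ℕ) : K) ≠ 0 := Nat.cast_ne_zero.2 two_ne_zero
  have h3K : ((3 : ℕ) : K) ≠ 0 := Nat.cast_ne_zero.2 three_ne_zero
  set y : K := yz m n z with hy
  have hy0 : y ≠ 0 := by
    rw [hy]
    unfold yz
    exact mul_ne_zero (div_ne_zero (pow_ne_zero _ h2K) (pow_ne_zero _ h3K)) hz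
  have hpt0 : pt r1 r2 y ≠ 0 := by
    intro h
    apply hpt
    rw [h]; rfl
  have hlogy : ∀ v, Real.log (fv v y) = m * Real.log (fv v ((2 : ℕ) : K)) -
      n * Real.log (fv v ((3 : ℕ) : K)) + Real.log (fv v z) := by
    intro v
    rw [hy]
    unfold yz
    rw [map_mul, map_div₀, map_pow, map_pow, Real.log_mul
      (div_ne_zero (pow_ne_zero _ ((fv v).ne_zero h2K)) (pow_ne_zero _ ((fv v).ne_zero h3K)))
      ((fv v).ne_zero hz), Real.log_div (pow_ne_zero _ ((fv v).ne_zero h2K))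
      (pow_ne_zero _ ((fv v).ne_zero h3K)), Real.log_pow, Real.log_pow]
  have hmain := NTc_le T α hα0 l1 l2 hl12 (Vp K 2 two_ne_zero) (Vp K 3 three_ne_zero)
    (xp r1 r2 y) hoff
    (fun v => c v + ((m : ℝ) * (-Real.log (fv v ((2 : ℕ) : K))) - Real.log (fv v z)) -
      Real.log (Nv v))
    (fun v => -c v + ((n : ℝ) * (-Real.log (fv v ((3 : ℕ) : K))) + Real.log (fv v z)) -
      Real.log (Nv v)) ?_ ?_
  · clear_value c
    have e1 : ∑ v ∈ Vp K 2 two_ne_zero, (c v + ((m : ℝ) * (-Real.log (fv v ((2 : ℕ) : K))) -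
        Real.log (fv v z)) - Real.log (Nv v)) = ∑ v ∈ Vp K 2 two_ne_zero, c v +
        ((m : ℝ) * ∑ v ∈ Vp K 2 two_ne_zero, (-Real.log (fv v ((2 : ℕ) : K))) -
        ∑ v ∈ Vp K 2 two_ne_zero, Real.log (fv v z)) -
        ∑ v ∈ Vp K 2 two_ne_zero, Real.log (Nv v) := by
      rw [Finset.sum_sub_distrib, Finset.sum_add_distrib, Finset.sum_sub_distrib, Finset.mul_sum]
    have e2 : ∑ v ∈ Vp K 3 three_ne_zero, (-c v + ((n : ℝ) * (-Real.log (fv v ((3 : ℕ) : K))) +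
        Real.log (fv v z)) - Real.log (Nv v)) = -∑ v ∈ Vp K 3 three_ne_zero, c v +
        ((n : ℝ) * ∑ v ∈ Vp K 3 three_ne_zero, (-Real.log (fv v ((3 : ℕ) : K))) +
        ∑ v ∈ Vp K 3 three_ne_zero, Real.log (fv v z)) -
        ∑ v ∈ Vp K 3 three_ne_zero, Real.log (Nv v) := by
      rw [Finset.sum_sub_distrib, Finset.sum_add_distrib, Finset.sum_add_distrib, Finset.mul_sum,
        Finset.sum_neg_distrib]
    rw [e1, e2, sum_Vp, sum_Vp] at hmain
    unfold GG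
    push_cast at hmain ⊢
    linarith
  · intro v hv
    rw [mem_Vp] at hv
    unfold xp
    rw [lamA_aff (fv v) hpt]
    have h1 := lamA_pt_left (fv v) (fv_na v) (hα0 l1) (hα0 l2) h12 hy0 hpt0
    have h2 := hlogy v
    rw [fv_eq_one_of_coprime v hv (show Nat.Coprime 2 3 by norm_num), Real.log_one] at h2
    simp only [hc]
    linarith
  · intro v hv
    rw [mem_Vp] at hv
    unfold xp
    rw [lamA_aff (fv v) hpt]
    have h1 := lamA_pt_right (fv v) (fv_na v) (hα0 l1) (hα0 l2) h12 hy0 hpt0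
    have h2 := hlogy v
    rw [fv_eq_one_of_coprime v hv (show Nat.Coprime 3 2 by norm_num), Real.log_one] at h2
    simp only [hc]
    linarith

theorem two_rpow_pow (c : ℝ) (m : ℕ) : ((2 : ℝ) ^ c) ^ m = 2 ^ (c * (m : ℝ)) := by
  rw [← Real.rpow_natCast, ← Real.rpow_mul (by norm_num)]

/-- **The estimates at one level.** -/
theorem ae_level (σ : K →+* ℝ) {C0 : ℝ} (hC0 : 1 ≤ C0)
    (hdir : ∀ ζ : ℝ, |ζ| ≤ 1 → ∀ Q : ℝ, 1 ≤ Q →
      ∃ y : K, mulHeight₁ y ≤ C0 * Q ∧ |ζ - σ y| ≤ C0 / (Q * mulHeight₁ y))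
    {ν δ η : ℝ} (hν : 0 < ν) (hδ : 0 < δ) (hδ1 : δ < 1) (hη : 0 < η) :
    ∀ᵐ x ∂(volume : Measure ℝ), |x| ≤ 1 → ∀ᶠ m : ℕ in atTop, ∃ z : K, z ≠ 0 ∧
      (2 : ℝ) ^ (ν * (1 - δ) * (m : ℝ)) < mulHeight₁ z ∧
      mulHeight₁ z ≤ C0 * (2 : ℝ) ^ (ν * (m : ℝ)) ∧ GG z < η * m * Real.log 2 ∧
      |x * ((3 : ℝ) ^ (Nat.log 3 (2 ^ m)) / 2 ^ m) - σ z| ≤
        C0 / ((2 : ℝ) ^ (ν * (m : ℝ)) * mulHeight₁ z) := by
  classical
  have hC00 : 0 < C0 := by linarith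
  -- the first sum
  obtain ⟨Ca, hCa0, hCa⟩ := NTc_triv (K := K)
  obtain ⟨S0, hS00, hS0⟩ := sum_of_count (K := K) {z | z ≠ 0} 0 (Ca + 1) (2 + δ) le_rfl
    (by norm_num) (by linarith) (by linarith) (fun z hz => ⟨hz, by
      have := hCa z hz
      linarith⟩)
  have hS0' : ∀ E : Finset K, (∀ z ∈ E, z ∈ (Set.univ : Set K)) →
      ∑ z ∈ E, mulHeight₁ z ^ (-(2 + δ)) ≤ 1 + S0 := by
    intro E _
    have h1 := hS0 (E.erase 0) (fun z hz => Finset.ne_of_mem_erase hz)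
    have h2 : ∑ z ∈ E, mulHeight₁ z ^ (-(2 + δ)) ≤
        ∑ z ∈ insert 0 (E.erase 0), mulHeight₁ z ^ (-(2 + δ)) := by
      apply Finset.sum_le_sum_of_subset_of_nonneg (Finset.subset_insert_iff.2 (Finset.Subset.refl _))
      intro z _ _
      exact Real.rpow_nonneg (mulHeight₁_pos z).le _
    rw [Finset.sum_insert (Finset.notMem_erase _ _)] at h2
    have h3 : mulHeight₁ (0 : K) ^ (-(2 + δ)) = 1 := by
      rw [mulHeight₁_zero, Real.one_rpow]
    rw [h3] at h2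
    linarith
  -- the second sum
  set κ1 : ℝ := min (η / ν) 1 with hκ1
  have hκ10 : 0 < κ1 := lt_min (by positivity) one_pos
  have hκ11 : κ1 ≤ 1 := min_le_right _ _
  have hκ1ν : κ1 * ν ≤ η := by
    have : κ1 ≤ η / ν := min_le_left _ _
    rwa [le_div_iff₀ hν] at this
  have hlogC0 : 0 ≤ Real.log C0 := Real.log_nonneg hC0
  set C1 : ℝ := κ1 * Real.log C0 with hC1
  have hC10 : 0 ≤ C1 := by positivity
  obtain ⟨Cb, hCb0, hCb⟩ := NTc_GG (K := K)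
  set P : Set K := {z | z ≠ 0 ∧ κ1 * hr (aff z) ≤ GG z + C1} with hP
  obtain ⟨S1, hS10, hS1⟩ := sum_of_count (K := K) P κ1 (Cb + C1 + 1) (2 - κ1 / 2) hκ10.le
    (by linarith) (by linarith) (by linarith) (fun z hz => ⟨hz.1, by
      have h1 := hCb z hz.1
      have h2 := hz.2
      linarith⟩)
  -- the bad sets
  set Q : ℕ → ℝ := fun m => (2 : ℝ) ^ (ν * (m : ℝ)) with hQ
  have hQ1 : ∀ m, 1 ≤ Q m := fun m => Real.one_le_rpow (by norm_num) (by positivity)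
  have hQ0 : ∀ m, 0 < Q m := fun m => lt_of_lt_of_le one_pos (hQ1 m)
  set r : ℕ → ℝ := fun m => (3 : ℝ) ^ (Nat.log 3 (2 ^ m)) / 2 ^ m with hr'
  have hn1 : ∀ m : ℕ, 3 ^ Nat.log 3 (2 ^ m) ≤ 2 ^ m := fun m => Nat.pow_log_le_self 3 (by positivity)
  have hn2 : ∀ m : ℕ, 2 ^ m < 3 ^ (Nat.log 3 (2 ^ m) + 1) :=
    fun m => Nat.lt_pow_succ_log_self (by norm_num) _
  have hr1 : ∀ m, r m ≤ 1 := by
    intro m
    simp only [hr']
    rw [div_le_one (by positivity)]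
    exact_mod_cast hn1 m
  have hr3 : ∀ m, 1 / 3 ≤ r m := by
    intro m
    simp only [hr']
    rw [div_le_div_iff₀ (by norm_num) (by positivity), one_mul]
    have h1 := hn2 m
    rw [pow_succ] at h1
    exact_mod_cast h1.le
  set EA : ℕ → Set ℝ := fun m => {ξ : ℝ | ∃ z ∈ (Set.univ : Set K),
    mulHeight₁ z ≤ (2 : ℝ) ^ (ν * (1 - δ) * (m : ℝ)) ∧
      |ξ * r m - σ z| ≤ C0 / Q m / mulHeight₁ z} with hEA
  set EB : ℕ → Set ℝ := fun m => {ξ : ℝ | ∃ z ∈ P, mulHeight₁ z ≤ C0 * Q m ∧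
      |ξ * r m - σ z| ≤ C0 / Q m / mulHeight₁ z} with hEB
  set BA : ℝ := 6 * C0 * (1 + S0) with hBA
  set BB : ℝ := 6 * C0 * C0 ^ (2 - κ1 / 2 - 1) * S1 with hBB
  have hBA0 : 0 ≤ BA := by positivity
  have hBB0 : 0 ≤ BB := by positivity
  have hvolA : ∀ m, volume (EA m) ≤ ENNReal.ofReal (BA * ((2 : ℝ) ^ (-(ν * δ ^ 2))) ^ m) := by
    intro m
    have h1 := volume_near σ Set.univ (p := 2 + δ) (S := 1 + S0) (by linarith) hS0' (r := r m)
      (A := C0 / Q m) (Y := (2 : ℝ) ^ (ν * (1 - δ) * (m : ℝ))) (hr3 m)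
      (div_nonneg hC00.le (hQ0 m).le)
      (Real.one_le_rpow (by norm_num) (by
        have : 0 ≤ ν * (1 - δ) := mul_nonneg hν.le (by linarith)
        positivity))
    refine h1.trans (ENNReal.ofReal_le_ofReal (le_of_eq ?_))
    have h2 : ((2 : ℝ) ^ (ν * (1 - δ) * (m : ℝ))) ^ (2 + δ - 1) =
        Q m * ((2 : ℝ) ^ (-(ν * δ ^ 2))) ^ m := by
      simp only [hQ]
      rw [two_rpow_pow, ← Real.rpow_add (by norm_num), ← Real.rpow_mul (by norm_num)]
      congr 1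
      ring
    rw [h2, hBA]
    have := (hQ0 m).ne'
    field_simp
  have hvolB : ∀ m, volume (EB m) ≤ ENNReal.ofReal (BB * ((2 : ℝ) ^ (-(ν * κ1 / 2))) ^ m) := by
    intro m
    have h1 := volume_near σ P (p := 2 - κ1 / 2) (S := S1) (by linarith) hS1 (r := r m)
      (A := C0 / Q m) (Y := C0 * Q m) (hr3 m)
      (div_nonneg hC00.le (hQ0 m).le) (one_le_mul_of_one_le_of_one_le hC0 (hQ1 m))
    refine h1.trans (ENNReal.ofReal_le_ofReal (le_of_eq ?_))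
    rw [Real.mul_rpow hC00.le (hQ0 m).le]
    have h2 : (Q m) ^ (2 - κ1 / 2 - 1) = Q m * ((2 : ℝ) ^ (-(ν * κ1 / 2))) ^ m := by
      simp only [hQ]
      rw [two_rpow_pow, ← Real.rpow_add (by norm_num), ← Real.rpow_mul (by norm_num)]
      congr 1
      ring
    rw [h2, hBB]
    have := (hQ0 m).ne'
    field_simp
  have hgeo : ∀ c : ℝ, 0 < c → Summable fun m : ℕ => ((2 : ℝ) ^ (-c)) ^ m := fun c hc =>
    summable_geometric_of_lt_one (by positivity)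
      (Real.rpow_lt_one_of_one_lt_of_neg (by norm_num) (by linarith))
  have hsum : ∀ (E : ℕ → Set ℝ) (B c : ℝ), 0 ≤ B → 0 < c →
      (∀ m, volume (E m) ≤ ENNReal.ofReal (B * ((2 : ℝ) ^ (-c)) ^ m)) →
      (∑' m, volume (E m)) ≠ ⊤ := by
    intro E B c hB hc hE
    refine ne_top_of_le_ne_top ?_ (ENNReal.tsum_le_tsum hE)
    rw [← ENNReal.ofReal_tsum_of_nonneg (fun m => by positivity) ((hgeo c hc).mul_left B)]
    exact ENNReal.ofReal_ne_top
  filter_upwards [ae_eventually_notMem (hsum EA BA (ν * δ ^ 2) hBA0 (by positivity) hvolA),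
    ae_eventually_notMem (hsum EB BB (ν * κ1 / 2) hBB0 (by positivity) hvolB)] with x hxA hxB hx1
  filter_upwards [hxA, hxB] with m hmA hmB
  have hζ : |x * r m| ≤ 1 := by
    rw [abs_mul, abs_of_nonneg (show 0 ≤ r m by linarith [hr3 m])]
    have := hr1 m
    have h0 : 0 ≤ r m := by linarith [hr3 m]
    nlinarith [abs_nonneg x]
  obtain ⟨z, hz1, hz2⟩ := hdir (x * r m) hζ (Q m) (hQ1 m)
  have hz2' : |x * r m - σ z| ≤ C0 / Q m / mulHeight₁ z := by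
    rw [div_div]
    exact hz2
  have hlow : (2 : ℝ) ^ (ν * (1 - δ) * (m : ℝ)) < mulHeight₁ z := by
    by_contra hcon
    push Not at hcon
    exact hmA ⟨z, Set.mem_univ _, hcon, hz2'⟩
  have hz0 : z ≠ 0 := by
    rintro rfl
    rw [mulHeight₁_zero] at hlow
    have : (1 : ℝ) ≤ (2 : ℝ) ^ (ν * (1 - δ) * (m : ℝ)) :=
      Real.one_le_rpow (by norm_num) (by
        have : 0 ≤ ν * (1 - δ) := mul_nonneg hν.le (by linarith)
        positivity)
    linarith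
  refine ⟨z, hz0, hlow, hz1, ?_, hz2⟩
  by_contra hcon
  push Not at hcon
  apply hmB
  refine ⟨z, ⟨hz0, ?_⟩, hz1, hz2'⟩
  rw [hr_aff_eq]
  have h1 : Real.log (mulHeight₁ z) ≤ Real.log C0 + ν * m * Real.log 2 := by
    have h2 := Real.log_le_log (mulHeight₁_pos z) hz1
    rw [Real.log_mul hC00.ne' (hQ0 m).ne'] at h2
    simp only [hQ] at h2
    rwa [Real.log_rpow (by norm_num)] at h2
  have h3 : κ1 * Real.log (mulHeight₁ z) ≤ κ1 * (Real.log C0 + ν * m * Real.log 2) :=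
    mul_le_mul_of_nonneg_left h1 hκ10.le
  have h4 : 0 ≤ (m : ℝ) * Real.log 2 := by
    have := Real.log_nonneg (show (1 : ℝ) ≤ 2 by norm_num)
    positivity
  have h5 : κ1 * ν * (m * Real.log 2) ≤ η * (m * Real.log 2) := mul_le_mul_of_nonneg_right hκ1ν h4
  rw [hC1]
  linarith

end Pool.Agent.R479.DK
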