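import Mathlib

/-!
# Dirichlet's theorem on approximation at a real place of a number field
-/

set_option autoImplicit false

namespace Pool.Agent.R479.DK

open NumberField InfinitePlace Finset

variable {K : Type} [Field K] [NumberField K]

/-- indices of the real coordinates at the infinite places different from `w0` -/
abbrev JJ (w0 : InfinitePlace K) : Type := Σ w : {w : InfinitePlace K // w ≠ w0}, Fin w.1.mult

/-- the real coordinates -/
noncomputable def psi {w0 : InfinitePlace K} (j : JJ w0) (x : 𝓞 K) : ℝ :=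
  if (j.2 : ℕ) = 0 then (j.1.1.embedding (x : K)).re else (j.1.1.embedding (x : K)).im

theorem psi_sub {w0 : InfinitePlace K} (j : JJ w0) (x y : 𝓞 K) :
    psi j (x - y) = psi j x - psi j y := by
  unfold psi
  have h : ((x - y : 𝓞 K) : K) = (x : K) - (y : K) := map_sub (algebraMap (𝓞 K) K) x y
  rw [h, map_sub, Complex.sub_re, Complex.sub_im]
  split_ifs <;> rfl

theorem abs_psi_le {w0 : InfinitePlace K} (j : JJ w0) (x : 𝓞 K) : |psi j x| ≤ j.1.1 (x : K) := by
  unfold psi
  rw [← norm_embedding_eq]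
  split_ifs
  · exact Complex.abs_re_le_norm _
  · exact Complex.abs_im_le_norm _

theorem lt_one_of_psi {w0 : InfinitePlace K} (x : 𝓞 K) (h : ∀ j : JJ w0, |2 * psi j x| < 1)
    (w : InfinitePlace K) (hw : w ≠ w0) : w (x : K) < 1 := by
  have hre : |(w.embedding (x : K)).re| < 1 / 2 := by
    have h1 := h ⟨⟨w, hw⟩, ⟨0, mult_pos⟩⟩
    unfold psi at h1
    rw [if_pos rfl, abs_mul, abs_two] at h1
    linarith
  rw [← norm_embedding_eq]
  rcases w.isReal_or_isComplex with hr | hc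
  · have h2 : (w.embedding (x : K)).im = 0 := by
      have h3 := (isReal_iff.1 hr)
      have h4 : (starRingEnd ℂ) (w.embedding (x : K)) = w.embedding (x : K) := by
        have h5 := congrArg (fun φ : K →+* ℂ => φ (x : K)) h3
        simpa using h5
      exact Complex.conj_eq_iff_im.1 h4
    have h6 := Complex.norm_le_abs_re_add_abs_im (w.embedding (x : K))
    rw [h2, abs_zero] at h6
    linarith
  · have him : |(w.embedding (x : K)).im| < 1 / 2 := by
      have hm : w.mult = 2 := by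
        unfold mult
        rw [if_neg (not_isReal_iff_isComplex.2 hc)]
      have h1 := h ⟨⟨w, hw⟩, ⟨1, by rw [hm]; norm_num⟩⟩
      unfold psi at h1
      rw [if_neg one_ne_zero, abs_mul, abs_two] at h1
      linarith
    have h6 := Complex.norm_le_abs_re_add_abs_im (w.embedding (x : K))
    linarith

open scoped Classical in
theorem card_JJ (w0 : InfinitePlace K) (hm : w0.mult = 1) :
    Fintype.card (JJ w0) + 1 = Module.finrank ℚ K := by
  rw [Fintype.card_sigma, ← sum_mult_eq (K := K)]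
  simp only [Fintype.card_fin]
  rw [← hm, ← Finset.sum_erase_add _ _ (Finset.mem_univ w0)]
  congr 1
  rw [← Finset.sum_subtype (p := fun w : InfinitePlace K => w ≠ w0)
    (f := fun w : InfinitePlace K => w.mult)]
  intro w
  simp

/-- the integer with given coordinates -/
noncomputable def elt (n : Module.Free.ChooseBasisIndex ℤ (𝓞 K) → ℕ) : 𝓞 K :=
  ∑ i, (n i : ℤ) • RingOfIntegers.basis K i

theorem elt_inj : Function.Injective (elt (K := K)) := by
  intro n n' h
  have h1 : ∀ m : Module.Free.ChooseBasisIndex ℤ (𝓞 K) → ℕ,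
      ((RingOfIntegers.basis K).repr (elt m) : Module.Free.ChooseBasisIndex ℤ (𝓞 K) → ℤ) =
        fun i => (m i : ℤ) := by
    intro m
    unfold elt
    exact (RingOfIntegers.basis K).repr_sum_self _
  funext i
  have h2 := congrFun (h1 n) i
  have h3 := congrFun (h1 n') i
  rw [h, h3] at h2
  exact_mod_cast h2.symm

/-- a bound for the basis -/
noncomputable def M0 (K : Type) [Field K] [NumberField K] : ℝ :=
  ∑ w : InfinitePlace K, ∑ i, w (RingOfIntegers.basis K i : K)

theorem M0_nonneg : 0 ≤ M0 K :=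
  Finset.sum_nonneg fun w _ => Finset.sum_nonneg fun i _ => apply_nonneg _ _

theorem elt_le (w : InfinitePlace K) (n : Module.Free.ChooseBasisIndex ℤ (𝓞 K) → ℕ) {H : ℕ}
    (hn : ∀ i, n i ≤ H) : w (elt n : K) ≤ M0 K * H := by
  have h1 : ((elt n : 𝓞 K) : K) = ∑ i, (n i : K) * (RingOfIntegers.basis K i : K) := by
    unfold elt
    show algebraMap (𝓞 K) K _ = _
    rw [map_sum]
    refine Finset.sum_congr rfl fun i _ => ?_
    rw [zsmul_eq_mul, map_mul]
    congr 1
    simp
  rw [h1]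
  calc w (∑ i, (n i : K) * (RingOfIntegers.basis K i : K))
      ≤ ∑ i, w ((n i : K) * (RingOfIntegers.basis K i : K)) := w.1.sum_le _ _
    _ ≤ ∑ i, (H : ℝ) * w (RingOfIntegers.basis K i : K) := by
        refine Finset.sum_le_sum fun i _ => ?_
        rw [map_mul]
        have h2 : w (n i : K) = n i := by
          rw [← norm_embedding_eq w (n i : K), map_natCast, Complex.norm_natCast]
        rw [h2]
        have h3 : (n i : ℝ) ≤ H := by exact_mod_cast hn i
        exact mul_le_mul_of_nonneg_right h3 (apply_nonneg _ _)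
    _ = (∑ i, w (RingOfIntegers.basis K i : K)) * H := by rw [← Finset.mul_sum, mul_comm]
    _ ≤ M0 K * H := by
        refine mul_le_mul_of_nonneg_right ?_ (Nat.cast_nonneg _)
        exact Finset.single_le_sum (f := fun w : InfinitePlace K =>
          ∑ i, w (RingOfIntegers.basis K i : K))
          (fun w _ => Finset.sum_nonneg fun i _ => apply_nonneg _ _) (Finset.mem_univ w)

/-- **Dirichlet's theorem at a real place.** -/
theorem dirichlet (σ : K →+* ℝ) (w0 : InfinitePlace K) (hw0 : ∀ x : K, w0 x = |σ x|)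
    (hm : w0.mult = 1) : ∃ C : ℝ, 1 ≤ C ∧ ∀ ζ : ℝ, |ζ| ≤ 1 → ∀ Q : ℝ, 1 ≤ Q →
      ∃ a b : 𝓞 K, 1 ≤ |σ (b : K)| ∧ |σ (b : K)| ≤ C * Q ∧
        |σ (a : K) - ζ * σ (b : K)| < 1 / Q ∧
        ∀ w : InfinitePlace K, w ≠ w0 → w (a : K) < 1 ∧ w (b : K) < 1 := by
  classical
  set d := Module.finrank ℚ K with hd
  have hd1 : 1 ≤ d := Module.finrank_pos
  set M := M0 K with hM
  have hM0 : 0 ≤ M := M0_nonneg
  set c : ℝ := 4 * M + 5 with hc
  have hc0 : 0 < c := by positivity
  have hc1 : 1 ≤ c := by linarith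
  set A : ℝ := c ^ (2 * (d - 1) + 1) with hA
  have hA1 : 1 ≤ A := one_le_pow₀ hc1
  refine ⟨2 * M * (A + 1) + 1, by nlinarith [mul_nonneg hM0 (by linarith : 0 ≤ A + 1)], ?_⟩
  intro ζ hζ Q hQ
  set H : ℕ := ⌈A * Q⌉₊ with hH
  have hAQ : 1 ≤ A * Q := by nlinarith
  have hHge : A * Q ≤ H := Nat.le_ceil _
  have hH1 : (1 : ℝ) ≤ H := hAQ.trans hHge
  have hHle : (H : ℝ) ≤ (A + 1) * Q := by
    have h1 : (H : ℝ) < A * Q + 1 := Nat.ceil_lt_add_one (by linarith)
    nlinarith
  set N1 : ℕ := ⌈2 * M * H⌉₊ + 1 with hN1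
  set N2 : ℕ := ⌈2 * M * H * Q⌉₊ + 1 with hN2
  have hN1le : (2 * N1 + 1 : ℝ) ≤ c * H := by
    have h1 : (⌈2 * M * H⌉₊ : ℝ) < 2 * M * H + 1 := Nat.ceil_lt_add_one (by positivity)
    rw [hN1]
    push_cast
    nlinarith
  have hN2le : (2 * N2 + 1 : ℝ) ≤ c * H * Q := by
    have h1 : (⌈2 * M * H * Q⌉₊ : ℝ) < 2 * M * H * Q + 1 := Nat.ceil_lt_add_one (by positivity)
    have h2 : 1 ≤ (H : ℝ) * Q := by nlinarith
    rw [hN2]
    push_cast
    nlinarith
  have hιc : Fintype.card (Module.Free.ChooseBasisIndex ℤ (𝓞 K)) = d := by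
    rw [← Module.finrank_eq_card_chooseBasisIndex, RingOfIntegers.rank]
  set D1 : Finset (Module.Free.ChooseBasisIndex ℤ (𝓞 K) → ℕ) := Fintype.piFinset fun _ => Finset.range (H + 1) with hD1
  set E1 : Finset (JJ w0 → ℤ) := Fintype.piFinset fun _ => Finset.Icc (-(N1 : ℤ)) N1 with hE1
  set E2 : Finset ℤ := Finset.Icc (-(N2 : ℤ)) N2 with hE2
  have hD1c : D1.card = (H + 1) ^ d := by
    rw [hD1, Fintype.card_piFinset, Finset.prod_const, Finset.card_univ, Finset.card_range, hιc]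
  have hJc : Fintype.card (JJ w0) = d - 1 := by
    have := card_JJ w0 hm
    omega
  have hE1c : E1.card = (2 * N1 + 1) ^ (d - 1) := by
    rw [hE1, Fintype.card_piFinset, Finset.prod_const, Finset.card_univ, Int.card_Icc, hJc]
    congr 1
    omega
  have hE2c : E2.card = 2 * N2 + 1 := by
    rw [hE2, Int.card_Icc]
    omega
  set f : (Module.Free.ChooseBasisIndex ℤ (𝓞 K) → ℕ) × (Module.Free.ChooseBasisIndex ℤ (𝓞 K) → ℕ) →
    (JJ w0 → ℤ) × (JJ w0 → ℤ) × ℤ := fun t =>
    (fun j => ⌊2 * psi j (elt t.1)⌋, fun j => ⌊2 * psi j (elt t.2)⌋,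
      ⌊Q * (σ (elt t.1 : K) - ζ * σ (elt t.2 : K))⌋) with hf
  have hcard : (E1 ×ˢ E1 ×ˢ E2).card < (D1 ×ˢ D1).card := by
    rw [Finset.card_product, Finset.card_product, Finset.card_product, hD1c, hE1c, hE2c]
    have h1 : (((2 * N1 + 1) ^ (d - 1) * ((2 * N1 + 1) ^ (d - 1) * (2 * N2 + 1)) : ℕ) : ℝ) <
        (((H + 1) ^ d * (H + 1) ^ d : ℕ) : ℝ) := by
      push_cast
      calc (2 * (N1 : ℝ) + 1) ^ (d - 1) * ((2 * (N1 : ℝ) + 1) ^ (d - 1) * (2 * (N2 : ℝ) + 1))
          ≤ (c * H) ^ (d - 1) * ((c * H) ^ (d - 1) * (c * H * Q)) := by gcongr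
        _ = (A * Q) * (H : ℝ) ^ (2 * (d - 1) + 1) := by
            rw [hA]
            ring
        _ ≤ H * (H : ℝ) ^ (2 * (d - 1) + 1) := by gcongr
        _ = (H : ℝ) ^ (d + d) := by
            rw [← pow_succ']
            congr 1
            omega
        _ < ((H : ℝ) + 1) ^ (d + d) := by
            apply pow_lt_pow_left₀ (by linarith) (by positivity) (by omega)
        _ = _ := by rw [pow_add]
    exact_mod_cast h1
  have habs : ∀ (N : ℕ) (r : ℝ), |r| ≤ (N : ℝ) - 1 → ⌊r⌋ ∈ Finset.Icc (-(N : ℤ)) N := by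
    intro N r hr
    rw [abs_le] at hr
    rw [Finset.mem_Icc]
    constructor
    · rw [Int.le_floor]
      push_cast
      linarith [hr.1]
    · have h2 : (⌊r⌋ : ℝ) ≤ N := (Int.floor_le r).trans (by linarith [hr.2])
      exact_mod_cast h2
  have hmaps : ∀ t ∈ D1 ×ˢ D1, f t ∈ E1 ×ˢ E1 ×ˢ E2 := by
    intro t ht
    rw [Finset.mem_product, hD1, Fintype.mem_piFinset, Fintype.mem_piFinset] at ht
    have ht1 : ∀ i, t.1 i ≤ H := fun i => by
      have := Finset.mem_range.1 (ht.1 i)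
      omega
    have ht2 : ∀ i, t.2 i ≤ H := fun i => by
      have := Finset.mem_range.1 (ht.2 i)
      omega
    have hpsi : ∀ (n : Module.Free.ChooseBasisIndex ℤ (𝓞 K) → ℕ), (∀ i, n i ≤ H) → ∀ j : JJ w0, |2 * psi j (elt n)| ≤ (N1 : ℝ) - 1 := by
      intro n hn j
      have h1 := (abs_psi_le j (elt n)).trans (elt_le j.1.1 n hn)
      have h2 : 2 * M * H ≤ (⌈2 * M * H⌉₊ : ℝ) := Nat.le_ceil _
      rw [abs_mul, abs_two, hN1]
      push_cast
      linarith
    rw [Finset.mem_product, Finset.mem_product, hE1, Fintype.mem_piFinset, Fintype.mem_piFinset]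
    refine ⟨fun j => habs N1 _ (hpsi _ ht1 j), fun j => habs N1 _ (hpsi _ ht2 j), habs N2 _ ?_⟩
    have h1 := elt_le w0 t.1 ht1
    have h2 := elt_le w0 t.2 ht2
    rw [hw0] at h1 h2
    have h3 : |σ (elt t.1 : K) - ζ * σ (elt t.2 : K)| ≤ 2 * M * H := by
      calc |σ (elt t.1 : K) - ζ * σ (elt t.2 : K)| ≤ |σ (elt t.1 : K)| + |ζ * σ (elt t.2 : K)| :=
            abs_sub _ _
        _ = |σ (elt t.1 : K)| + |ζ| * |σ (elt t.2 : K)| := by rw [abs_mul]
        _ ≤ M * H + 1 * (M * H) := by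
            have h4 := abs_nonneg (σ (elt t.2 : K))
            have h5 := abs_nonneg ζ
            exact add_le_add h1 (mul_le_mul hζ h2 h4 zero_le_one)
        _ = 2 * M * H := by ring
    rw [abs_mul, abs_of_pos (by linarith : 0 < Q)]
    have h4 : 2 * M * H * Q ≤ (⌈2 * M * H * Q⌉₊ : ℝ) := Nat.le_ceil _
    rw [hN2]
    push_cast
    nlinarith
  obtain ⟨s, hs, t, ht, hst, hfst⟩ := Finset.exists_ne_map_eq_of_card_lt_of_maps_to hcard hmaps
  simp only [hf, Prod.mk.injEq] at hfst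
  obtain ⟨hf1, hf2, hf3⟩ := hfst
  set a : 𝓞 K := elt s.1 - elt t.1 with ha
  set b : 𝓞 K := elt s.2 - elt t.2 with hb
  have haK : (a : K) = (elt s.1 : K) - (elt t.1 : K) := map_sub (algebraMap (𝓞 K) K) _ _
  have hbK : (b : K) = (elt s.2 : K) - (elt t.2 : K) := map_sub (algebraMap (𝓞 K) K) _ _
  have hpa : ∀ j : JJ w0, |2 * psi j a| < 1 := by
    intro j
    rw [ha, psi_sub, mul_sub]
    exact Int.abs_sub_lt_one_of_floor_eq_floor (congrFun hf1 j)
  have hpb : ∀ j : JJ w0, |2 * psi j b| < 1 := by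
    intro j
    rw [hb, psi_sub, mul_sub]
    exact Int.abs_sub_lt_one_of_floor_eq_floor (congrFun hf2 j)
  have hwa := lt_one_of_psi a hpa
  have hwb := lt_one_of_psi b hpb
  have hQ0 : 0 < Q := by linarith
  have hL : |σ (a : K) - ζ * σ (b : K)| < 1 / Q := by
    have h1 := Int.abs_sub_lt_one_of_floor_eq_floor hf3
    have h2 : Q * (σ (elt s.1 : K) - ζ * σ (elt s.2 : K)) -
        Q * (σ (elt t.1 : K) - ζ * σ (elt t.2 : K)) = Q * (σ (a : K) - ζ * σ (b : K)) := by
      rw [haK, hbK, map_sub, map_sub]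
      ring
    rw [h2, abs_mul, abs_of_pos hQ0] at h1
    rw [lt_div_iff₀ hQ0]
    linarith
  have hb0 : b ≠ 0 := by
    intro h0
    have ha0 : a ≠ 0 := by
      intro h1
      apply hst
      have h2 : elt s.1 = elt t.1 := sub_eq_zero.1 h1
      have h3 : elt s.2 = elt t.2 := sub_eq_zero.1 h0
      exact Prod.ext (elt_inj h2) (elt_inj h3)
    have h1 : 1 ≤ w0 (a : K) := one_le_of_lt_one ha0 fun z hz => hwa z hz
    rw [hw0] at h1
    have hbK0 : (b : K) = 0 := by
      rw [h0]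
      exact map_zero (algebraMap (𝓞 K) K)
    rw [hbK0, map_zero, mul_zero, sub_zero] at hL
    have h2 : 1 / Q ≤ 1 := by
      rw [div_le_one hQ0]
      exact hQ
    linarith
  have hb1 : 1 ≤ |σ (b : K)| := by
    rw [← hw0]
    exact one_le_of_lt_one hb0 fun z hz => hwb z hz
  refine ⟨a, b, hb1, ?_, hL, fun w hw => ⟨hwa w hw, hwb w hw⟩⟩
  rw [Finset.mem_product, hD1, Fintype.mem_piFinset, Fintype.mem_piFinset] at hs ht
  have h1 := elt_le w0 s.2 (H := H) fun i => by
    have := Finset.mem_range.1 (hs.2 i)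
    omega
  have h2 := elt_le w0 t.2 (H := H) fun i => by
    have := Finset.mem_range.1 (ht.2 i)
    omega
  rw [hw0] at h1 h2
  calc |σ (b : K)| ≤ |σ (elt s.2 : K)| + |σ (elt t.2 : K)| := by
        rw [hbK, map_sub]
        exact abs_sub _ _
    _ ≤ 2 * M * H := by linarith
    _ ≤ 2 * M * ((A + 1) * Q) := by gcongr
    _ ≤ (2 * M * (A + 1) + 1) * Q := by nlinarith

end Pool.Agent.R479.DK
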