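import Pool.Agent.R479.DK.Core

/-!
# Almost every number is close to the parameters of exceptional points
-/

set_option autoImplicit false

namespace Pool.Agent.R479.DK

open NumberField IsDedekindDomain Finset Height MeasureTheory Filter Topology
open Pool.Agent.H691R3 Pool.Agent.W221.Exc
open Pool.Agent.R479.DB (xp ex mb)
open scoped ENNReal NNReal

variable {K : Type} [Field K] [NumberField K]

/-- the parameters of height at most `C 2 ^ (E m)` that give exceptional points -/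
def Good (T : Set (HeightOneSpectrum (𝓞 K))) {q : ℕ} (α : Fin q → K × K) (l1 l2 : Fin q)
    (κ c0 C E : ℝ) (m : ℕ) : Set K :=
  {y | (pt (α l1) (α l2) y).2 ≠ 0 ∧ xp (α l1) (α l2) y ∈ ex T α κ c0 ∧
    mulHeight₁ y ≤ C * (2 : ℝ) ^ (E * (m : ℝ))}

theorem ae_not_range (σ : K →+* ℝ) :
    ∀ᵐ x ∂(volume : Measure ℝ), ∀ y : K, x ≠ σ y := by
  have := Pool.Agent.R479.DB.countable_nf K
  have h1 : (Set.range σ).Countable := Set.countable_range _
  have h2 := h1.measure_zero (volume : Measure ℝ)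
  rw [← compl_mem_ae_iff] at h2
  filter_upwards [h2] with x hx y hxy
  exact hx ⟨y, hxy.symm⟩

theorem tendsto_two (c : ℝ) (hc : 0 < c) :
    Tendsto (fun m : ℕ => (2 : ℝ) ^ (c * (m : ℝ))) atTop atTop := by
  have h4 : (1 : ℝ) < 2 ^ c := Real.one_lt_rpow (by norm_num) hc
  exact (tendsto_pow_atTop_atTop_of_one_lt h4).congr fun m => two_rpow_pow c m

theorem tendsto_two_neg (c : ℝ) (hc : 0 < c) :
    Tendsto (fun m : ℕ => (2 : ℝ) ^ (-c * (m : ℝ))) atTop (𝓝 0) := by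
  have h1 := (tendsto_two c hc).inv_tendsto_atTop
  refine h1.congr fun m => ?_
  simp only [Pi.inv_apply]
  rw [← Real.rpow_neg (by norm_num)]
  congr 1
  ring

/-- the arithmetic of the parameters -/
theorem final_ineq {hx hz G d ν κ η m n c0 C3 c4 c5 L2 L3 q N : ℝ} (hκ : 0 ≤ κ) (hd : 0 < d)
    (h1 : N ≤ q * hx + C3 - d * (m * L2 + n * L3) + G) (h2 : hx ≤ c4 + m * d * L2 + hz)
    (h3 : hz ≤ c5 + ν * m * L2) (h4 : G < η * m * L2) (h5 : m * L2 ≤ (n + 1) * L3)
    (hpar : κ * (d + ν) + 2 * η = 2 * d)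
    (hbig : κ * (c4 + c5) + C3 + d * L3 - d * c0 < η * m * L2) :
    N < (q - κ) * hx + d * c0 := by
  have h6 : κ * hx ≤ κ * (c4 + m * d * L2 + (c5 + ν * m * L2)) :=
    mul_le_mul_of_nonneg_left (by linarith) hκ
  have h7 : d * (m * L2) ≤ d * ((n + 1) * L3) := mul_le_mul_of_nonneg_left h5 hd.le
  have h8 : (κ * (d + ν) + 2 * η) * (m * L2) = 2 * d * (m * L2) := by rw [hpar]
  nlinarith

/-- **Almost every number is close to the parameters of exceptional points at every level.** -/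
theorem ae_good (σ : K →+* ℝ) {C0 : ℝ} (hC0 : 1 ≤ C0)
    (hdir : ∀ ζ : ℝ, |ζ| ≤ 1 → ∀ Q : ℝ, 1 ≤ Q →
      ∃ y : K, mulHeight₁ y ≤ C0 * Q ∧ |ζ - σ y| ≤ C0 / (Q * mulHeight₁ y))
    (T : Set (HeightOneSpectrum (𝓞 K))) {q : ℕ} (α : Fin q → K × K)
    (hα0 : ∀ l, α l ≠ 0) (hα : ∀ i j, i ≠ j → wg (α i) (α j) ≠ 0) (l1 l2 : Fin q) (hl12 : l1 ≠ l2)
    {κ κ' κ'' : ℝ} (c0 : ℝ) (hκ : 0 ≤ κ) (h1 : κ < κ') (h2 : κ' < κ'') (h3 : κ'' < 2) :
    ∀ᵐ x ∂(volume : Measure ℝ), |x| ≤ 1 → ∀ᶠ m : ℕ in atTop,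
      ∃ y ∈ Good T α l1 l2 κ c0 C0 (2 * (Module.finrank ℚ K : ℝ) / κ') m,
        |x - σ y| < (2 : ℝ) ^ (-((2 - κ'') * (2 * (Module.finrank ℚ K : ℝ) / κ')) * (m : ℝ)) := by
  classical
  set d : ℝ := (Module.finrank ℚ K : ℝ) with hd
  have hd0 : 0 < d := by
    rw [hd]
    exact_mod_cast Module.finrank_pos
  have hC00 : 0 < C0 := by linarith
  have hκ'0 : 0 < κ' := by linarith
  have hκ'2 : 0 < 2 - κ' := by linarith
  set ν : ℝ := (2 - κ') * d / κ' with hν
  have hν0 : 0 < ν := by positivity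
  set δ : ℝ := (κ'' - κ') / (2 - κ') with hδ
  have hδ0 : 0 < δ := div_pos (by linarith) hκ'2
  have hδ1 : δ < 1 := (div_lt_one hκ'2).2 (by linarith)
  set η : ℝ := d * (1 - κ / κ') with hη
  have hr1 : κ / κ' < 1 := (div_lt_one hκ'0).2 h1
  have hη0 : 0 < η := by
    rw [hη]
    apply mul_pos hd0
    linarith
  set E : ℝ := 2 * d / κ' with hE
  have hE0 : 0 < E := by positivity
  have hdν : d + ν = E := by
    rw [hν, hE]
    field_simp
    ring
  set mu : ℝ := 2 - κ'' with hmu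
  have hmu0 : 0 < mu := by linarith
  have hpar : κ * (d + ν) + 2 * η = 2 * d := by
    rw [hdν, hE, hη]
    field_simp
    ring
  have hgap : ν * (2 - δ) - mu * E = d * (κ'' - κ') / κ' := by
    rw [hν, hδ, hmu, hE]
    field_simp
    ring
  have hgap0 : 0 < ν * (2 - δ) - mu * E := by
    rw [hgap]
    have : 0 < κ'' - κ' := by linarith
    positivity
  obtain ⟨C3, hC3⟩ := NTc_yz T α hα0 hα l1 l2 hl12
  obtain ⟨C4, hC40, hC4⟩ := mob_height (K := K) (α l2).1 (α l1).1 (α l2).2 (α l1).2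
  have h12 : wg (α l1) (α l2) ≠ 0 := hα l1 l2 hl12
  have hlog2 : 0 < Real.log 2 := Real.log_pos (by norm_num)
  filter_upwards [ae_level σ hC0 hdir hν0 hδ0 hδ1 hη0, ae_not_range σ] with x hx hxr hx1
  have hlin : Tendsto (fun m : ℕ => η * m * Real.log 2) atTop atTop := by
    have h4 : Tendsto (fun m : ℕ => (η * Real.log 2) * (m : ℝ)) atTop atTop :=
      tendsto_natCast_atTop_atTop.const_mul_atTop (by positivity)
    refine h4.congr fun m => ?_
    ring
  have ev1 := hlin.eventually_gt_atTop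
    (κ * (Real.log C4 + Real.log C0) + C3 + d * Real.log 3 - d * c0)
  have ev2 := (tendsto_two _ hgap0).eventually_gt_atTop (3 * C0)
  have ev3 : ∀ᶠ m : ℕ in atTop, ∀ e ∈ exc α (α l1) (α l2),
      (2 : ℝ) ^ (-(mu * E) * (m : ℝ)) < |x - σ e| := by
    rw [Filter.eventually_all_finset]
    intro e _
    have h4 : 0 < |x - σ e| := abs_pos.2 (sub_ne_zero.2 (hxr e))
    exact (tendsto_two_neg (mu * E) (by positivity)).eventually_lt_const h4
  filter_upwards [hx hx1, ev1, ev2, ev3] with m hm e1 e2 e3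
  obtain ⟨z, hz0, hzl, hzu, hzG, hzd⟩ := hm
  set n : ℕ := Nat.log 3 (2 ^ m) with hn
  have hn1 : 3 ^ n ≤ 2 ^ m := Nat.pow_log_le_self 3 (by positivity)
  have hn2 : 2 ^ m < 3 ^ (n + 1) := Nat.lt_pow_succ_log_self (by norm_num) _
  have h2m : (0 : ℝ) < 2 ^ m := by positivity
  have h3n : (0 : ℝ) < 3 ^ n := by positivity
  have hratio : (2 : ℝ) ^ m / 3 ^ n ≤ 3 := by
    rw [div_le_iff₀ h3n]
    have h4 := hn2
    rw [pow_succ, mul_comm] at h4
    exact_mod_cast h4.le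
  set y : K := yz m n z with hy
  have hHz := mulHeight₁_pos z
  have hHy := mulHeight₁_pos y
  -- the distance
  have hdist : |x - σ y| < (2 : ℝ) ^ (-(mu * E) * (m : ℝ)) := by
    have h4 : x - σ y = (2 : ℝ) ^ m / 3 ^ n * (x * ((3 : ℝ) ^ n / 2 ^ m) - σ z) := by
      rw [hy, sigma_yz]
      field_simp
    rw [h4, abs_mul, abs_of_pos (show (0 : ℝ) < 2 ^ m / 3 ^ n by positivity)]
    have h5 : (0 : ℝ) < (2 : ℝ) ^ (ν * (m : ℝ)) := by positivity
    have h6 : (0 : ℝ) < (2 : ℝ) ^ (ν * (1 - δ) * (m : ℝ)) := by positivity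
    calc (2 : ℝ) ^ m / 3 ^ n * |x * ((3 : ℝ) ^ n / 2 ^ m) - σ z|
        ≤ 3 * (C0 / ((2 : ℝ) ^ (ν * (m : ℝ)) * mulHeight₁ z)) := by gcongr
      _ ≤ 3 * (C0 / ((2 : ℝ) ^ (ν * (m : ℝ)) * (2 : ℝ) ^ (ν * (1 - δ) * (m : ℝ)))) := by gcongr
      _ = (3 * C0) * (2 : ℝ) ^ (-(ν * (2 - δ)) * (m : ℝ)) := by
          rw [← Real.rpow_add (by norm_num), mul_div_assoc', div_eq_mul_inv,
            ← Real.rpow_neg (by norm_num)]
          congr 2
          ring
      _ < (2 : ℝ) ^ ((ν * (2 - δ) - mu * E) * (m : ℝ)) * (2 : ℝ) ^ (-(ν * (2 - δ)) * (m : ℝ)) := by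
          have : (0 : ℝ) < (2 : ℝ) ^ (-(ν * (2 - δ)) * (m : ℝ)) := by positivity
          gcongr
      _ = (2 : ℝ) ^ (-(mu * E) * (m : ℝ)) := by
          rw [← Real.rpow_add (by norm_num)]
          congr 1
          ring
  have hyexc : y ∉ exc α (α l1) (α l2) := by
    intro h
    have := e3 y h
    linarith
  have hpt := pt_snd_ne α h12 hyexc
  have hoff : Off α (xp (α l1) (α l2) y) := off_xx α hα hl12 hyexc
  have hHyz : mulHeight₁ y ≤ ((2 : ℝ) ^ m) ^ Module.finrank ℚ K * mulHeight₁ z :=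
    height_yz hn1 z
  refine ⟨y, ⟨hpt, ⟨hoff, ?_⟩, ?_⟩, hdist⟩
  · -- the counting function
    have g1 := hC3 m n z hz0 hpt hoff
    have g2 : hr (aff (xp (α l1) (α l2) y)) ≤
        Real.log C4 + m * d * Real.log 2 + Real.log (mulHeight₁ z) := by
      rw [hr_aff_eq]
      have h4 : mulHeight₁ (xp (α l1) (α l2) y) ≤ C4 * mulHeight₁ y := hC4 y
      have h5 : mulHeight₁ (xp (α l1) (α l2) y) ≤
          C4 * (((2 : ℝ) ^ m) ^ Module.finrank ℚ K * mulHeight₁ z) :=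
        h4.trans (mul_le_mul_of_nonneg_left hHyz hC40.le)
      have h6 := Real.log_le_log (mulHeight₁_pos _) h5
      rw [Real.log_mul hC40.ne' (by positivity), Real.log_mul (by positivity) hHz.ne',
        Real.log_pow, Real.log_pow] at h6
      rw [hd]
      linarith
    have g3 : Real.log (mulHeight₁ z) ≤ Real.log C0 + ν * m * Real.log 2 := by
      have h4 := Real.log_le_log hHz hzu
      rw [Real.log_mul hC00.ne' (by positivity), Real.log_rpow (by norm_num)] at h4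
      exact h4
    have g5 : (m : ℝ) * Real.log 2 ≤ ((n : ℝ) + 1) * Real.log 3 := by
      have h4 : ((2 : ℝ) ^ m) ≤ 3 ^ (n + 1) := by exact_mod_cast hn2.le
      have h5 := Real.log_le_log h2m h4
      rw [Real.log_pow, Real.log_pow] at h5
      push_cast at h5
      exact h5
    have hfin := final_ineq (q := (q : ℝ)) hκ hd0 g1 g2 g3 hzG g5 hpar e1
    have h8 := counting_mul T α (xp (α l1) (α l2) y)
    have h9 := height_mul (xp (α l1) (α l2) y)
    rw [← h8, ← h9, ← hd] at hfin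
    have h10 : d * counting T α (xp (α l1) (α l2) y) <
        d * (((q : ℝ) - κ) * height (xp (α l1) (α l2) y) + c0) := by
      calc _ < _ := hfin
        _ = _ := by ring
    exact lt_of_mul_lt_mul_left h10 hd0.le
  · -- the height
    refine hHyz.trans ?_
    calc ((2 : ℝ) ^ m) ^ Module.finrank ℚ K * mulHeight₁ z
        ≤ ((2 : ℝ) ^ m) ^ Module.finrank ℚ K * (C0 * (2 : ℝ) ^ (ν * (m : ℝ))) := by gcongr
      _ = C0 * ((2 : ℝ) ^ (d * (m : ℝ)) * (2 : ℝ) ^ (ν * (m : ℝ))) := by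
          have h4 : ((2 : ℝ) ^ m) ^ Module.finrank ℚ K = (2 : ℝ) ^ (d * (m : ℝ)) := by
            rw [← pow_mul, ← Real.rpow_natCast]
            congr 1
            push_cast
            ring
          rw [h4]
          ring
      _ = C0 * (2 : ℝ) ^ (E * (m : ℝ)) := by
          rw [← Real.rpow_add (by norm_num), ← hdν]
          congr 2
          ring

end Pool.Agent.R479.DK
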