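import Pool.Agent.R479.DK.Good

/-!
# The dimension of the set of numbers with many exceptional approximations over a number field
-/

set_option autoImplicit false

namespace Pool.Agent.R479.DK

open NumberField IsDedekindDomain Finset Height MeasureTheory Filter Topology
open Pool.Agent.H691R3 Pool.Agent.W221.Exc
open Pool.Agent.R479.DB (xp ex mb mb_lip dim_transfer dimH_approx)
open scoped ENNReal NNReal

variable {K : Type} [Field K] [NumberField K]

/-- the numbers in `[0, 1]` close to members of `G m` for infinitely many `m` -/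
def VV (σ : K →+* ℝ) (G : ℕ → Set K) (a : ℝ) : Set ℝ :=
  {x | (0 ≤ x ∧ x ≤ 1) ∧ ∃ᶠ m : ℕ in atTop, ∃ y ∈ G m, |x - σ y| < (2 : ℝ) ^ (-a * (m : ℝ))}

theorem VV_low (σ : K →+* ℝ) (G : ℕ → Set K) {a b : ℝ} (ha : 0 < a) (hab : a ≤ b)
    (hfull : ∀ᵐ x ∂(volume : Measure ℝ), |x| ≤ 1 → ∀ᶠ m : ℕ in atTop,
      ∃ y ∈ G m, |x - σ y| < (2 : ℝ) ^ (-a * (m : ℝ))) :
    ENNReal.ofReal (a / b) ≤ dimH (VV σ G b) := by
  have hb0 : 0 < b := by linarith
  set t : ℝ := a / b with ht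
  have ht0 : 0 < t := div_pos ha hb0
  have ht1 : t ≤ 1 := (div_le_one hb0).2 hab
  set C : ℕ → Set ℝ := fun m => σ '' (G m) with hC
  set ρ : ℕ → ℝ := fun m => (2 : ℝ) ^ (-a * (m : ℝ)) with hρ
  have hρpos : ∀ m, 0 < ρ m := fun m => by
    simp only [hρ]
    positivity
  have hρ0 : Tendsto ρ atTop (𝓝 0) := tendsto_two_neg a ha
  have hfull' : ∀ᵐ x ∂(volume : Measure ℝ), x ∈ Set.Ioo 0 1 →
      ∃ᶠ k in atTop, ∃ c ∈ C k, |x - c| < ρ k := by
    filter_upwards [hfull] with x hx hx01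
    have h1 := hx (by
      rw [abs_le]
      exact ⟨by linarith [hx01.1], hx01.2.le⟩)
    refine Filter.Eventually.frequently (h1.mono ?_)
    rintro m ⟨y, hy, hd⟩
    exact ⟨σ y, ⟨y, hy, rfl⟩, hd⟩
  have hcont : ∀ s : ℝ, 0 < s → s < t → μH[s] (VV σ G b) ≠ 0 := by
    intro s hs hst hzero
    have h4 : ENNReal.ofReal (1 / 20) ≤ μH[s] (VV σ G b) := by
      rw [Measure.hausdorffMeasure_apply]
      refine le_trans ?_ (le_iSup₂ (f := fun (r : ℝ≥0∞) (_ : 0 < r) =>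
        ⨅ (t : ℕ → Set ℝ) (_ : VV σ G b ⊆ ⋃ n, t n) (_ : ∀ n, Metric.ediam (t n) ≤ r),
          ∑' n, ⨆ _ : (t n).Nonempty, Metric.ediam (t n) ^ s) 1 one_pos)
      refine le_iInf fun A => le_iInf fun hA => le_iInf fun _ => ?_
      have h5 := Pool.Agent.R331.MT.content hs hst ht1 C ρ hρpos hρ0 hfull' A (by
        refine subset_trans ?_ hA
        rintro x ⟨hx01, hx⟩
        refine ⟨⟨hx01.1, hx01.2⟩, hx.mono ?_⟩
        rintro m ⟨c, ⟨y, hy, rfl⟩, hc⟩
        refine ⟨y, hy, ?_⟩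
        have h6 : ρ m ^ (1 / t) = (2 : ℝ) ^ (-b * (m : ℝ)) := by
          simp only [hρ]
          rw [← Real.rpow_mul (by norm_num)]
          congr 1
          rw [ht]
          field_simp
        rw [h6] at hc
        exact hc)
      refine h5.trans (ENNReal.tsum_le_tsum fun n => ?_)
      rcases (A n).eq_empty_or_nonempty with hn | hn
      · rw [hn, Metric.ediam_empty, ENNReal.zero_rpow_of_pos hs]
        exact zero_le
      · exact le_iSup (fun _ : (A n).Nonempty => Metric.ediam (A n) ^ s) hn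
    rw [hzero] at h4
    have h5 : ENNReal.ofReal (1 / 20) = 0 := nonpos_iff_eq_zero.1 h4
    rw [ENNReal.ofReal_eq_zero] at h5
    norm_num at h5
  refine le_of_forall_lt fun c hc => ?_
  obtain ⟨s, hs1, hs2⟩ := ENNReal.lt_iff_exists_real_btwn.1 hc
  obtain ⟨hs2, hs3⟩ := hs2
  have hst : s < t := (ENNReal.ofReal_lt_ofReal_iff ht0).1 hs3
  have hs0 : 0 < s := by
    have : 0 < ENNReal.ofReal s := lt_of_le_of_lt zero_le hs2
    exact ENNReal.ofReal_pos.1 this
  have h6 := hcont s hs0 hst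
  have h7 : ((Real.toNNReal s : ℝ≥0) : ℝ) = s := Real.coe_toNNReal s hs0.le
  have h8 := le_dimH_of_hausdorffMeasure_ne_zero (d := Real.toNNReal s) (s := VV σ G b)
    (by rw [h7]; exact h6)
  exact lt_of_lt_of_le hs2 h8

theorem VV_mono (σ : K →+* ℝ) (G : ℕ → Set K) {a b : ℝ} (hab : b ≤ a) : VV σ G a ⊆ VV σ G b := by
  rintro x ⟨hx01, hx⟩
  refine ⟨hx01, hx.mono ?_⟩
  rintro m ⟨y, hy, hd⟩
  refine ⟨y, hy, hd.trans_le ?_⟩
  apply Real.rpow_le_rpow_of_exponent_le (by norm_num)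
  have : (0 : ℝ) ≤ m := Nat.cast_nonneg m
  nlinarith

theorem VV_ge (σ : K →+* ℝ) (G : ℕ → Set K) {a b : ℝ} (ha : 0 < a) (hb : 0 < b)
    (hfull : ∀ᵐ x ∂(volume : Measure ℝ), |x| ≤ 1 → ∀ᶠ m : ℕ in atTop,
      ∃ y ∈ G m, |x - σ y| < (2 : ℝ) ^ (-a * (m : ℝ))) :
    ENNReal.ofReal (min 1 (a / b)) ≤ dimH (VV σ G b) := by
  rcases le_total a b with h | h
  · exact (ENNReal.ofReal_le_ofReal (min_le_right _ _)).trans (VV_low σ G ha h hfull)
  · refine (ENNReal.ofReal_le_ofReal (min_le_left _ _)).trans ?_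
    have h1 := VV_low σ G ha le_rfl hfull
    rw [div_self ha.ne'] at h1
    exact h1.trans (dimH_mono (VV_mono σ G h))

/-- the numbers with infinitely many exceptional approximations -/
def WEK (σ : K →+* ℝ) (T : Set (HeightOneSpectrum (𝓞 K))) {q : ℕ} (α : Fin q → K × K)
    (κ c τ : ℝ) : Set ℝ :=
  {ξ | {x : K | x ∈ ex T α κ c ∧
    dist ξ (σ x) ≤ Real.exp (Pool.Agent.W221.Exc.height x) ^ (-τ)}.Infinite}

theorem exp_height (x : K) : Real.exp (Pool.Agent.W221.Exc.height x) =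
    mulHeight₁ x ^ (1 / (Module.finrank ℚ K : ℝ)) := by
  have hd : (0 : ℝ) < (Module.finrank ℚ K : ℝ) := by exact_mod_cast Module.finrank_pos
  have h1 := height_mul x
  rw [hr_aff_eq] at h1
  rw [Real.rpow_def_of_pos (mulHeight₁_pos x), ← h1]
  congr 1
  field_simp

theorem sigma_xp (σ : K →+* ℝ) (r1 r2 : K × K) (y : K) :
    σ (xp r1 r2 y) = mb (σ r2.1) (σ r1.1) (σ r2.2) (σ r1.2) (σ y) := by
  unfold Pool.Agent.R479.DB.xp pt Pool.Agent.R479.DB.mb
  simp only [map_div₀, map_add, map_mul]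

/-- the image of a number close to good parameters is in `WEK` -/
theorem mem_WEK (σ : K →+* ℝ) (T : Set (HeightOneSpectrum (𝓞 K))) {q : ℕ} (α : Fin q → K × K)
    (l1 l2 : Fin q) (h12 : wg (α l1) (α l2) ≠ 0) {κ c0 C E τ τ' : ℝ} (hC : 0 < C) (hE : 0 < E)
    (hτ : 0 < τ) (hτ' : τ / (Module.finrank ℚ K : ℝ) < τ') {η : ℝ} (hη : 0 < η) {x : ℝ}
    (hxr : ∀ y : K, x ≠ σ y) (hpole : η ≤ |x * σ (α l2).2 + σ (α l1).2|)
    (hx : x ∈ VV σ (Good T α l1 l2 κ c0 C E) (τ' * E)) :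
    mb (σ (α l2).1) (σ (α l1).1) (σ (α l2).2) (σ (α l1).2) x ∈ WEK σ T α κ c0 τ := by
  classical
  set d : ℝ := (Module.finrank ℚ K : ℝ) with hd
  have hd0 : 0 < d := by
    rw [hd]
    exact_mod_cast Module.finrank_pos
  have hτ'0 : 0 < τ' := lt_trans (by positivity) hτ'
  obtain ⟨C4, hC40, hC4⟩ := mob_height (K := K) (α l2).1 (α l1).1 (α l2).2 (α l1).2
  set a : ℝ := σ (α l2).1 with ha
  set b : ℝ := σ (α l1).1 with hb
  set c : ℝ := σ (α l2).2 with hc
  set e : ℝ := σ (α l1).2 with he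
  set L : ℝ := |a * e - b * c| / (η / 2) ^ 2 with hL
  have hL0 : 0 ≤ L := by positivity
  -- the set of approximations
  unfold WEK
  simp only [Set.mem_ofPred_eq]
  intro hfin
  set X : Set K := {x' : K | x' ∈ ex T α κ c0 ∧
    dist (mb a b c e x) (σ x') ≤ Real.exp (Pool.Agent.W221.Exc.height x') ^ (-τ)} with hX
  have hYfin : {y : K | (pt (α l1) (α l2) y).2 ≠ 0 ∧ xp (α l1) (α l2) y ∈ X}.Finite := by
    apply Set.Finite.of_finite_image (f := xp (α l1) (α l2))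
    · refine hfin.subset ?_
      rintro _ ⟨y, hy, rfl⟩
      exact hy.2
    · intro y hy y' hy' h
      exact pt_inj h12 hy.1 hy'.1 h
  -- the minimal distance
  have hsep : ∀ᶠ m : ℕ in atTop, ∀ y ∈ hYfin.toFinset,
      (2 : ℝ) ^ (-(τ' * E) * (m : ℝ)) < |x - σ y| := by
    rw [Filter.eventually_all_finset]
    intro y _
    have h4 : 0 < |x - σ y| := abs_pos.2 (sub_ne_zero.2 (hxr y))
    exact (tendsto_two_neg (τ' * E) (by positivity)).eventually_lt_const h4
  have hcc : 0 < η / (2 * (|c| + 1)) := by positivity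
  have hgap : 0 < (τ' - τ / d) * E := mul_pos (by linarith) hE
  have ev1 := (tendsto_two_neg (τ' * E) (by positivity)).eventually_le_const hcc
  have ev2 := (tendsto_two _ hgap).eventually_ge_atTop (L * (C4 * C) ^ (τ / d))
  obtain ⟨m, ⟨y, hy, hdy⟩, h1, h2, h3⟩ :=
    (hx.2.and_eventually (hsep.and (ev1.and ev2))).exists
  obtain ⟨hpt, hyex, hyH⟩ := hy
  have hyY : y ∈ hYfin.toFinset := by
    rw [Set.Finite.mem_toFinset]
    refine ⟨hpt, hyex, ?_⟩
    rw [sigma_xp, ← ha, ← hb, ← hc, ← he, Real.dist_eq, exp_height]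
    have hpole2 : η / 2 ≤ |σ y * c + e| := by
      have h5 : x * c + e = (σ y * c + e) + (x - σ y) * c := by ring
      have h6 : |x * c + e| ≤ |σ y * c + e| + |x - σ y| * |c| := by
        rw [h5, ← abs_mul]
        exact abs_add_le _ _
      have h7 : |x - σ y| * |c| ≤ η / 2 := by
        calc |x - σ y| * |c| ≤ η / (2 * (|c| + 1)) * |c| := by
              have := hdy.le.trans h2
              gcongr
          _ ≤ η / (2 * (|c| + 1)) * (|c| + 1) := by
              gcongr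
              linarith
          _ = η / 2 := by
              have : |c| + 1 ≠ 0 := by positivity
              field_simp
      linarith
    have h8 := mb_lip (a := a) (b := b) (c := c) (e := e) (η := η / 2) (by positivity)
      (y := x) (y' := σ y) (by linarith) hpole2
    refine h8.trans ?_
    have hHpos : 0 < mulHeight₁ (xp (α l1) (α l2) y) := mulHeight₁_pos _
    have hxH : mulHeight₁ (xp (α l1) (α l2) y) ≤ C4 * C * (2 : ℝ) ^ (E * (m : ℝ)) := by
      calc mulHeight₁ (xp (α l1) (α l2) y) ≤ C4 * mulHeight₁ y := hC4 y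
        _ ≤ C4 * (C * (2 : ℝ) ^ (E * (m : ℝ))) := by gcongr
        _ = _ := by ring
    rw [← Real.rpow_mul hHpos.le]
    have hexp : 1 / d * -τ = -(τ / d) := by ring
    rw [hexp]
    have h9 : (C4 * C * (2 : ℝ) ^ (E * (m : ℝ))) ^ (-(τ / d)) ≤
        mulHeight₁ (xp (α l1) (α l2) y) ^ (-(τ / d)) :=
      Real.rpow_le_rpow_of_nonpos hHpos hxH (by
        have : 0 < τ / d := by positivity
        linarith)
    refine le_trans ?_ h9
    have hCC : 0 < C4 * C := mul_pos hC40 hC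
    have h10 : (C4 * C * (2 : ℝ) ^ (E * (m : ℝ))) ^ (-(τ / d)) =
        ((C4 * C) ^ (τ / d))⁻¹ * (2 : ℝ) ^ (-(τ / d * E) * (m : ℝ)) := by
      rw [Real.mul_rpow hCC.le (by positivity), Real.rpow_neg hCC.le, ← Real.rpow_mul (by norm_num)]
      congr 2
      ring
    have h11 : (2 : ℝ) ^ (-(τ / d * E) * (m : ℝ)) =
        (2 : ℝ) ^ (-(τ' * E) * (m : ℝ)) * (2 : ℝ) ^ ((τ' - τ / d) * E * (m : ℝ)) := by
      rw [← Real.rpow_add (by norm_num)]
      congr 1
      ring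
    rw [h10, h11]
    have h12' : (0 : ℝ) < (2 : ℝ) ^ (-(τ' * E) * (m : ℝ)) := by positivity
    have h13 : 0 < (C4 * C) ^ (τ / d) := by positivity
    calc L * |x - σ y| ≤ L * (2 : ℝ) ^ (-(τ' * E) * (m : ℝ)) := by
          have := hdy.le
          gcongr
      _ = ((C4 * C) ^ (τ / d))⁻¹ *
          ((2 : ℝ) ^ (-(τ' * E) * (m : ℝ)) * (L * (C4 * C) ^ (τ / d))) := by field_simp
      _ ≤ ((C4 * C) ^ (τ / d))⁻¹ *
          ((2 : ℝ) ^ (-(τ' * E) * (m : ℝ)) * (2 : ℝ) ^ ((τ' - τ / d) * E * (m : ℝ))) := by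
          gcongr
  have h14 := h1 y hyY
  linarith

end Pool.Agent.R479.DK
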