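import Pool.Agent.R479.DK.Low

/-!
# The exact dimension over a number field with a real place
-/

set_option autoImplicit false

namespace Pool.Agent.R479.DK

open NumberField IsDedekindDomain Finset Height MeasureTheory Filter Topology
open Pool.Agent.H691R3 Pool.Agent.W221.Exc
open Pool.Agent.R479.DB (xp ex mb mb_lip dim_transfer dimH_approx)
open scoped ENNReal NNReal

variable {K : Type} [Field K] [NumberField K]

theorem dirichlet_real (σ : K →+* ℝ) : ∃ C : ℝ, 1 ≤ C ∧ ∀ ζ : ℝ, |ζ| ≤ 1 → ∀ Q : ℝ, 1 ≤ Q →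
    ∃ y : K, mulHeight₁ y ≤ C * Q ∧ |ζ - σ y| ≤ C / (Q * mulHeight₁ y) := by
  set φ : K →+* ℂ := Complex.ofRealHom.comp σ with hφ
  have hreal : NumberField.ComplexEmbedding.IsReal φ := by
    rw [NumberField.ComplexEmbedding.isReal_iff]
    ext x
    simp [hφ, NumberField.ComplexEmbedding.conjugate_coe_eq]
  have hw : ∀ x : K, InfinitePlace.mk φ x = |σ x| := by
    intro x
    rw [InfinitePlace.apply]
    simp [hφ]
  have hm : (InfinitePlace.mk φ).mult = 1 := by
    have h1 : (InfinitePlace.mk φ).IsReal := ⟨φ, hreal, rfl⟩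
    exact InfinitePlace.mult_isReal ⟨_, h1⟩
  exact dirichlet_y σ (InfinitePlace.mk φ) hw hm

/-- the lower bound for the dimension -/
theorem WEK_ge (σ : K →+* ℝ) (T : Set (HeightOneSpectrum (𝓞 K))) {q : ℕ} (hq : 2 ≤ q)
    (α : Fin q → K × K) (hα0 : ∀ l, α l ≠ 0) (hα : ∀ i j, i ≠ j → wg (α i) (α j) ≠ 0)
    (κ c0 τ : ℝ) (hκ : 0 ≤ κ) (hκ2 : κ < 2) (hτ : 0 < τ) :
    ENNReal.ofReal (min 1 ((Module.finrank ℚ K : ℝ) * (2 - κ) / τ)) ≤
      dimH (WEK σ T α κ c0 τ) := by
  set d : ℝ := (Module.finrank ℚ K : ℝ) with hd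
  have hd0 : 0 < d := by
    rw [hd]
    exact_mod_cast Module.finrank_pos
  obtain ⟨C0, hC0, hdir⟩ := dirichlet_real σ
  have hC00 : 0 < C0 := by linarith
  set l1 : Fin q := ⟨0, by omega⟩ with hl1
  set l2 : Fin q := ⟨1, by omega⟩ with hl2
  have hl12 : l1 ≠ l2 := by
    rw [hl1, hl2]
    intro h
    have := congrArg Fin.val h
    simp at this
  have h12 : wg (α l1) (α l2) ≠ 0 := hα l1 l2 hl12
  have hdet : σ (α l2).1 * σ (α l1).2 - σ (α l1).1 * σ (α l2).2 ≠ 0 := by
    rw [← map_mul, ← map_mul, ← map_sub]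
    intro h
    apply h12
    have h1 := (map_eq_zero σ).1 h
    unfold wg
    linear_combination (-1 : K) * h1
  have key : ∀ mu τ' : ℝ, 0 < mu → mu < 2 - κ → τ / d < τ' →
      ENNReal.ofReal (min 1 (mu / τ')) ≤ dimH (WEK σ T α κ c0 τ) := by
    intro mu τ' h1 h2 h3
    have hτ'0 : 0 < τ' := lt_trans (by positivity) h3
    set κ'' : ℝ := 2 - mu with hκ''
    set κ' : ℝ := (κ + κ'') / 2 with hκ'
    have hκ'0 : 0 < κ' := by linarith
    set E : ℝ := 2 * d / κ' with hE
    have hE0 : 0 < E := by positivity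
    have hmu : 2 - κ'' = mu := by rw [hκ'']; ring
    have hgood := ae_good σ hC0 hdir T α hα0 hα l1 l2 hl12 (κ := κ) (κ' := κ') (κ'' := κ'') c0 hκ
      (by linarith) (by linarith) (by linarith)
    rw [← hd, ← hE, hmu] at hgood
    set G : ℕ → Set K := Good T α l1 l2 κ c0 C0 E with hG
    have h4 := VV_ge σ G (a := mu * E) (b := τ' * E) (by positivity) (by positivity) hgood
    have h5 : mu * E / (τ' * E) = mu / τ' := by
      field_simp
    rw [h5] at h4
    refine h4.trans ?_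
    -- remove the numbers of the field
    have hcount : Countable K := Pool.Agent.R479.DB.countable_nf K
    have hR : (Set.range σ).Countable := Set.countable_range _
    have h6 : dimH (VV σ G (τ' * E)) ≤ dimH (VV σ G (τ' * E) \ Set.range σ) := by
      have h7 : VV σ G (τ' * E) ⊆ (VV σ G (τ' * E) \ Set.range σ) ∪ Set.range σ := by
        intro x hx
        by_cases h : x ∈ Set.range σ
        · exact Or.inr h
        · exact Or.inl ⟨hx, h⟩
      refine (dimH_mono h7).trans ?_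
      rw [dimH_union, hR.dimH_zero]
      exact max_le le_rfl zero_le
    refine h6.trans ?_
    refine dim_transfer hdet _ (WEK σ T α κ c0 τ) (fun y hy => hy.1.1) fun η hη y hy _ hy2 => ?_
    exact mem_WEK σ T α l1 l2 h12 hC00 hE0 hτ (by rw [← hd]; exact h3) hη
      (fun z hz => hy.2 ⟨z, hz.symm⟩) hy2 hy.1
  -- the limit
  have hlim : Tendsto (fun s : ℝ => ENNReal.ofReal (min 1 ((2 - κ - s) / (τ / d + s)))) (𝓝[>] 0)
      (𝓝 (ENNReal.ofReal (min 1 ((2 - κ) / (τ / d))))) := by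
    apply ENNReal.tendsto_ofReal
    have h1 : Tendsto (fun s : ℝ => min 1 ((2 - κ - s) / (τ / d + s))) (𝓝 0)
        (𝓝 (min 1 ((2 - κ - 0) / (τ / d + 0)))) := by
      apply Tendsto.min tendsto_const_nhds
      apply Tendsto.div
      · exact Continuous.tendsto (by fun_prop) 0
      · exact Continuous.tendsto (by fun_prop) 0
      · have : 0 < τ / d := by positivity
        linarith
    rw [sub_zero, add_zero] at h1
    exact h1.mono_left nhdsWithin_le_nhds
  have heq : (2 - κ) / (τ / d) = d * (2 - κ) / τ := by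
    field_simp
  rw [heq] at hlim
  refine le_of_tendsto hlim ?_
  have h2 : ∀ᶠ s : ℝ in 𝓝[>] 0, s < 2 - κ := by
    apply eventually_nhdsWithin_of_eventually_nhds
    exact gt_mem_nhds (by linarith)
  filter_upwards [h2, self_mem_nhdsWithin] with s hs hs0
  have hs0' : 0 < s := hs0
  exact key (2 - κ - s) (τ / d + s) (by linarith) (by linarith) (by linarith)

/-- the upper bound for the dimension -/
theorem WEK_le (σ : K →+* ℝ) (T : Set (HeightOneSpectrum (𝓞 K))) (hT : T.Finite) {q : ℕ}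
    (hq : 2 ≤ q) (α : Fin q → K × K) (hα0 : ∀ l, α l ≠ 0)
    (hα : ∀ i j, i ≠ j → (α i).1 * (α j).2 - (α i).2 * (α j).1 ≠ 0)
    (κ c0 τ e : ℝ) (hκ : 0 ≤ κ) (he : 0 ≤ e) (hτ : 0 < τ)
    (hsel : Pool.Agent.H691R3.Sel.{0} q κ e) :
    dimH (WEK σ T α κ c0 τ) ≤ ENNReal.ofReal (min 1 ((Module.finrank ℚ K : ℝ) * e / τ)) := by
  have hcount : Countable K := Pool.Agent.R479.DB.countable_nf K
  rw [ENNReal.ofReal_min, ENNReal.ofReal_one]
  apply le_min
  · rw [← Real.dimH_univ]
    exact dimH_mono (Set.subset_univ _)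
  · refine dimH_approx (fun x : K => σ x) (ex T α κ c0)
      (fun x => Real.exp (Pool.Agent.W221.Exc.height x)) (fun x => ?_) (by positivity) hτ
      (fun ε hε => ?_)
    · rw [exp_height]
      exact Real.one_le_rpow (one_le_mulHeight₁ x) (by positivity)
    · obtain ⟨C, hC⟩ := Pool.Agent.W221.Exc.upper T hT hq α hα0 hα κ c0 ε e hκ hε he hsel
      refine ⟨C, fun B hB => ?_⟩
      have h1 : {x : K | x ∈ ex T α κ c0 ∧ Real.exp (Pool.Agent.W221.Exc.height x) ≤ B} =
          exceptional T α κ c0 B := by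
        ext x
        constructor
        · rintro ⟨⟨h2, h3⟩, h4⟩
          exact ⟨h2, h4, h3⟩
        · rintro ⟨h2, h4, h3⟩
          exact ⟨⟨h2, h3⟩, h4⟩
      rw [h1]
      exact hC B hB

end Pool.Agent.R479.DK
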