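import Pool.Agent.R479.DK.Dir2
import Pool.Agent.R479.DB.Pts

/-!
# Sums over the elements of a number field
-/

set_option autoImplicit false

namespace Pool.Agent.R479.DK

open NumberField IsDedekindDomain Finset Height MeasureTheory
open Pool.Agent.H691R3 Pool.Agent.W221.Exc
open scoped ENNReal NNReal

variable {K : Type} [Field K] [NumberField K]

/-- the difference of the local sizes at the primes above `2` and above `3` -/
noncomputable def GG (z : K) : ℝ :=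
  ∑ v ∈ Vp K 2 two_ne_zero, Real.log (fv v z) - ∑ v ∈ Vp K 3 three_ne_zero, Real.log (fv v z)

/-- the two points `0` and `∞` -/
def a2 (K : Type) [Field K] : Fin 2 → K × K := ![(0, 1), (1, 0)]

lemma a2_ne_zero (l : Fin 2) : a2 K l ≠ 0 := by
  fin_cases l
  · intro h
    have := congrArg Prod.snd h
    simp [a2] at this
  · intro h
    have := congrArg Prod.fst h
    simp [a2] at this

lemma a2_wg (i j : Fin 2) (h : i ≠ j) : wg (a2 K i) (a2 K j) ≠ 0 := by
  fin_cases i <;> fin_cases j <;> simp_all [a2, wg]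

lemma off_a2 {z : K} (hz : z ≠ 0) : Off (a2 K) z := by
  intro l
  fin_cases l
  · simp only [a2, wg, aff]
    simpa using hz
  · simp [a2, wg, aff]

lemma wg_a2_zero (z : K) : wg (aff z) (a2 K 0) = z := by
  simp [a2, wg, aff]

lemma nrm_aff (v : HeightOneSpectrum (𝓞 K)) (z : K) : nrm (fv v) (aff z) = max (fv v z) 1 := by
  unfold nrm aff
  rw [map_one]

lemma lam_zero (v : HeightOneSpectrum (𝓞 K)) {z : K} (hz : z ≠ 0) :
    -Real.log (fv v z) ≤ lamA (fv v) (aff z) (a2 K 0) := by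
  have h1 : lamA (fv v) (aff z) (a2 K 0) = Real.log (nrm (fv v) (aff z)) +
      Real.log (nrm (fv v) (a2 K 0)) - Real.log (fv v (wg (aff z) (a2 K 0))) :=
    lamA_eq (fv v) (aff_ne_zero z) (a2_ne_zero 0) (off_a2 hz 0)
  rw [h1, nrm_aff, wg_a2_zero]
  have h2 : nrm (fv v) (a2 K 0) = 1 := by
    simp [nrm, a2]
  rw [h2, Real.log_one]
  have h3 : 0 ≤ Real.log (max (fv v z) 1) := Real.log_nonneg (le_max_right _ _)
  linarith

lemma lam_one (v : HeightOneSpectrum (𝓞 K)) {z : K} (hz : z ≠ 0) :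
    Real.log (fv v z) ≤ lamA (fv v) (aff z) (a2 K 1) := by
  have h1 : lamA (fv v) (aff z) (a2 K 1) = Real.log (nrm (fv v) (aff z)) +
      Real.log (nrm (fv v) (a2 K 1)) - Real.log (fv v (wg (aff z) (a2 K 1))) :=
    lamA_eq (fv v) (aff_ne_zero z) (a2_ne_zero 1) (off_a2 hz 1)
  rw [h1, nrm_aff]
  have h2 : nrm (fv v) (a2 K 1) = 1 := by
    simp [nrm, a2]
  have h3 : fv v (wg (aff z) (a2 K 1)) = 1 := by
    simp [a2, wg, aff]
  rw [h2, h3, Real.log_one]
  have h4 : Real.log (fv v z) ≤ Real.log (max (fv v z) 1) :=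
    Real.log_le_log ((fv v).pos hz) (le_max_left _ _)
  linarith

theorem NTc_triv : ∃ C : ℝ, 0 ≤ C ∧ ∀ z : K, z ≠ 0 →
    NTc ∅ (a2 K) z ≤ 2 * hr (aff z) + C := by
  refine ⟨|2 * lossK K + ∑ l, hr (a2 K l)|, abs_nonneg _, fun z hz => ?_⟩
  have h1 := NTc_le ∅ (a2 K) a2_ne_zero 0 1 (by decide) ∅ ∅ z (off_a2 hz) (fun _ => 0)
    (fun _ => 0) (by simp) (by simp)
  simp only [Finset.sum_empty, sub_zero] at h1
  have h2 := le_abs_self (2 * lossK K + ∑ l, hr (a2 K l))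
  push_cast at h1
  linarith

theorem NTc_GG : ∃ C : ℝ, 0 ≤ C ∧ ∀ z : K, z ≠ 0 →
    NTc ∅ (a2 K) z ≤ 2 * hr (aff z) + C - GG z := by
  refine ⟨|2 * lossK K + ∑ l, hr (a2 K l) + ∑ v ∈ Vp K 3 three_ne_zero, Real.log (Nv v) +
    ∑ v ∈ Vp K 2 two_ne_zero, Real.log (Nv v)|, abs_nonneg _, fun z hz => ?_⟩
  have h1 := NTc_le ∅ (a2 K) a2_ne_zero 0 1 (by decide) (Vp K 3 three_ne_zero)
    (Vp K 2 two_ne_zero) z (off_a2 hz) (fun v => -Real.log (fv v z) - Real.log (Nv v))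
    (fun v => Real.log (fv v z) - Real.log (Nv v))
    (fun v _ => by
      have := lam_zero v hz
      linarith) (fun v _ => by
      have := lam_one v hz
      linarith)
  rw [Finset.sum_sub_distrib, Finset.sum_sub_distrib, Finset.sum_neg_distrib] at h1
  have h2 := le_abs_self (2 * lossK K + ∑ l, hr (a2 K l) +
    ∑ v ∈ Vp K 3 three_ne_zero, Real.log (Nv v) + ∑ v ∈ Vp K 2 two_ne_zero, Real.log (Nv v))
  push_cast at h1
  unfold GG
  linarith

/-- the sum of the `H(z) ^ (-p)` over a set whose members violate the truncated inequality -/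
theorem sum_of_count (P : Set K) (κ1 C0 p : ℝ) (hκ1 : 0 ≤ κ1) (hκ2 : κ1 ≤ 2) (hC0 : 0 ≤ C0)
    (hp : 2 - κ1 < p)
    (hP : ∀ z ∈ P, z ≠ 0 ∧ NTc ∅ (a2 K) z < (2 - κ1) * hr (aff z) + C0) :
    ∃ S : ℝ, 0 ≤ S ∧ ∀ E : Finset K, (∀ z ∈ E, z ∈ P) →
      ∑ z ∈ E, mulHeight₁ z ^ (-p) ≤ S := by
  classical
  set δ : ℝ := (p - (2 - κ1)) / 2 with hδ
  have hδ0 : 0 < δ := by
    rw [hδ]
    linarith
  have hsel := Pool.Agent.H691R3.sel_two.{0} (q := 2) le_rfl κ1
  have he : (2 : ℝ) - 2 * κ1 / ((2 : ℕ) : ℝ) = 2 - κ1 := by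
    push_cast
    ring
  rw [he] at hsel
  obtain ⟨C, hC, hcnt⟩ := Pool.Agent.H691R3.count_all2 (K := K) le_rfl ∅ Set.finite_empty (a2 K)
    a2_ne_zero a2_wg κ1 (2 - κ1) hκ1 (by linarith) hsel C0 hC0 δ hδ0
  have hcard : ∀ (X : ℝ), 1 ≤ X → ∀ E : Finset K, (∀ z ∈ E, z ∈ P ∧ mulHeight₁ z ≤ X) →
      (E.card : ℝ) ≤ C * X ^ (2 - κ1 + δ) := by
    intro X hX E hE
    have hX0 : 0 < X := by linarith
    have h1 := hcnt (Real.log X) (Real.log_nonneg hX) E (fun z hz => by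
      obtain ⟨h2, h3⟩ := hE z hz
      refine ⟨off_a2 (hP z h2).1, ?_, ?_⟩
      · have := (hP z h2).2
        push_cast
        exact this
      · rw [hr_aff_eq]
        exact Real.log_le_log (mulHeight₁_pos _) h3)
    rw [Real.rpow_def_of_pos hX0, mul_comm (Real.log X)]
    exact h1
  have hsum : Summable fun z : P => mulHeight₁ (z : K) ^ (-p) := by
    refine Pool.Agent.R479.DA.summable_heights (ι := P) (fun z => mulHeight₁ (z : K))
      (fun z => one_le_mulHeight₁ _) (s := 2 - κ1 + δ) (C := C) (by linarith) (by linarith) ?_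
    intro X hX
    have hb : ∀ F : Finset P, (∀ z ∈ F, mulHeight₁ (z : K) ≤ X) →
        (F.card : ℝ) ≤ C * X ^ (2 - κ1 + δ) := by
      intro F hF
      have h1 := hcard X hX (F.map ⟨Subtype.val, Subtype.val_injective⟩) (fun z hz => by
        rw [Finset.mem_map] at hz
        obtain ⟨w, hw, rfl⟩ := hz
        exact ⟨w.2, hF w hw⟩)
      rwa [Finset.card_map] at h1
    have hX0 : 0 < X := by linarith
    have hnn : 0 ≤ C * X ^ (2 - κ1 + δ) := by positivity
    have hfin : {z : P | mulHeight₁ (z : K) ≤ X}.Finite := by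
      by_contra hinf
      obtain ⟨F, hF, hFc⟩ := Set.Infinite.exists_subset_card_eq hinf
        (⌊C * X ^ (2 - κ1 + δ)⌋₊ + 1)
      have h1 := hb F (fun z hz => hF hz)
      have h2 := Nat.lt_floor_add_one (C * X ^ (2 - κ1 + δ))
      rw [hFc] at h1
      push_cast at h1
      linarith
    refine ⟨hfin, ?_⟩
    rw [Set.ncard_eq_toFinset_card _ hfin]
    exact hb _ (fun z hz => by
      rw [Set.Finite.mem_toFinset] at hz
      exact hz)
  have hnn : ∀ z : P, 0 ≤ mulHeight₁ (z : K) ^ (-p) := fun z =>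
    Real.rpow_nonneg (mulHeight₁_pos _).le _
  refine ⟨∑' z : P, mulHeight₁ (z : K) ^ (-p), tsum_nonneg hnn, fun E hE => ?_⟩
  have h1 := hsum.sum_le_tsum (E.subtype (fun z => z ∈ P)) (fun z _ => hnn z)
  refine le_trans (le_of_eq ?_) h1
  rw [Finset.sum_subtype_of_mem (fun z : K => mulHeight₁ z ^ (-p)) hE]

/-- the measure of the numbers `ξ` with `ξ r` close to the image of a member of a set `P` -/
theorem volume_near (σ : K →+* ℝ) (P : Set K) {p S : ℝ} (hp : 1 ≤ p)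
    (hS : ∀ E : Finset K, (∀ z ∈ E, z ∈ P) → ∑ z ∈ E, mulHeight₁ z ^ (-p) ≤ S)
    {r A Y : ℝ} (hr : 1 / 3 ≤ r) (hA : 0 ≤ A) (hY : 1 ≤ Y) :
    volume {ξ : ℝ | ∃ z ∈ P, mulHeight₁ z ≤ Y ∧ |ξ * r - σ z| ≤ A / mulHeight₁ z} ≤
      ENNReal.ofReal (6 * A * Y ^ (p - 1) * S) := by
  classical
  have hY0 : 0 < Y := by linarith
  have hr0 : 0 < r := by linarith
  have hone : ∀ z : K, mulHeight₁ z ≤ Y →
      1 / mulHeight₁ z ≤ Y ^ (p - 1) * mulHeight₁ z ^ (-p) := by
    intro z hz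
    have hH := mulHeight₁_pos z
    have h1 : 1 / mulHeight₁ z = mulHeight₁ z ^ (p - 1) * mulHeight₁ z ^ (-p) := by
      rw [← Real.rpow_add hH, one_div, ← Real.rpow_neg_one]
      congr 1
      ring
    rw [h1]
    have h2 : mulHeight₁ z ^ (p - 1) ≤ Y ^ (p - 1) :=
      Real.rpow_le_rpow hH.le hz (by linarith)
    have h3 : 0 ≤ mulHeight₁ z ^ (-p) := Real.rpow_nonneg hH.le _
    exact mul_le_mul_of_nonneg_right h2 h3
  have hfin : {z : K | z ∈ P ∧ mulHeight₁ z ≤ Y}.Finite := by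
    by_contra hinf
    obtain ⟨F, hF, hFc⟩ := Set.Infinite.exists_subset_card_eq hinf (⌊Y ^ p * S⌋₊ + 1)
    have h1 := hS F (fun z hz => (hF hz).1)
    have h2 : ∀ z ∈ F, Y ^ (-p) ≤ mulHeight₁ z ^ (-p) := by
      intro z hz
      exact Real.rpow_le_rpow_of_nonpos (mulHeight₁_pos z) (hF hz).2 (by linarith)
    have h3 : (F.card : ℝ) * Y ^ (-p) ≤ ∑ z ∈ F, mulHeight₁ z ^ (-p) := by
      rw [← nsmul_eq_mul]
      exact Finset.card_nsmul_le_sum _ _ _ h2
    have h4 : (F.card : ℝ) ≤ Y ^ p * S := by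
      have h5 : (F.card : ℝ) = Y ^ p * (F.card * Y ^ (-p)) := by
        have : Y ^ p * Y ^ (-p) = 1 := by
          rw [← Real.rpow_add hY0]
          simp
        calc (F.card : ℝ) = F.card * (Y ^ p * Y ^ (-p)) := by rw [this, mul_one]
          _ = _ := by ring
      rw [h5]
      have : 0 ≤ Y ^ p := by positivity
      exact mul_le_mul_of_nonneg_left (h3.trans h1) this
    have h6 := Nat.lt_floor_add_one (Y ^ p * S)
    rw [hFc] at h4
    push_cast at h4
    linarith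
  have hsub : {ξ : ℝ | ∃ z ∈ P, mulHeight₁ z ≤ Y ∧ |ξ * r - σ z| ≤ A / mulHeight₁ z} ⊆
      ⋃ z ∈ hfin.toFinset, Metric.closedBall (σ z / r) (3 * A * (1 / mulHeight₁ z)) := by
    rintro ξ ⟨z, hz, hzY, hd⟩
    rw [Set.mem_iUnion₂]
    refine ⟨z, ?_, ?_⟩
    · rw [Set.Finite.mem_toFinset]
      exact ⟨hz, hzY⟩
    · rw [Metric.mem_closedBall, Real.dist_eq]
      have e1 : ξ - σ z / r = (ξ * r - σ z) / r := by
        field_simp
      rw [e1, abs_div, abs_of_pos hr0, div_le_iff₀ hr0]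
      refine hd.trans ?_
      have hH := mulHeight₁_pos z
      rw [div_eq_mul_one_div A]
      have h0 : 0 ≤ A * (1 / mulHeight₁ z) := by positivity
      nlinarith
  refine (measure_mono hsub).trans ((measure_biUnion_finset_le _ _).trans ?_)
  have h1 : ∀ z ∈ hfin.toFinset,
      volume (Metric.closedBall (σ z / r) (3 * A * (1 / mulHeight₁ z))) ≤
        ENNReal.ofReal (6 * A * Y ^ (p - 1) * mulHeight₁ z ^ (-p)) := by
    intro z hz
    rw [Set.Finite.mem_toFinset] at hz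
    rw [Real.volume_closedBall]
    apply ENNReal.ofReal_le_ofReal
    have h2 := hone z hz.2
    calc 2 * (3 * A * (1 / mulHeight₁ z)) = 6 * A * (1 / mulHeight₁ z) := by ring
      _ ≤ 6 * A * (Y ^ (p - 1) * mulHeight₁ z ^ (-p)) := by gcongr
      _ = _ := by ring
  refine (Finset.sum_le_sum h1).trans ?_
  rw [← ENNReal.ofReal_sum_of_nonneg (fun z _ => by
    have h3 : 0 ≤ mulHeight₁ z ^ (-p) := Real.rpow_nonneg (mulHeight₁_pos _).le _
    positivity), ← Finset.mul_sum]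
  apply ENNReal.ofReal_le_ofReal
  have h4 := hS hfin.toFinset (fun z hz => by
    rw [Set.Finite.mem_toFinset] at hz
    exact hz.1)
  gcongr

end Pool.Agent.R479.DK
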