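import Pool.Agent.R479.DK.Main

/-!
# Each prime counted once
-/

set_option autoImplicit false

namespace Pool.Agent.R479.DK

open NumberField IsDedekindDomain Finset Height
open Pool.Agent.H691R3 Pool.Agent.W221.Exc
open Pool.Agent.R479.DB (xp ex mb)

variable {K : Type} [Field K] [NumberField K]

/-- the truncated counting function, each prime counted once -/
noncomputable def NT1 (T : Set (HeightOneSpectrum (𝓞 K))) {q : ℕ} (α : Fin q → K × K) (x : K) : ℝ :=
  ∑ᶠ (v : HeightOneSpectrum (𝓞 K)) (_ : v ∉ T ∧ ∃ l, 0 < lamA (fv v) (aff x) (α l)),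
    Real.log (Nv v)

/-- the primes at which some local height is positive -/
noncomputable def Vx {q : ℕ} (α : Fin q → K × K) (hα0 : ∀ l, α l ≠ 0) (x : K) (hx : Off α x) :
    Finset (HeightOneSpectrum (𝓞 K)) :=
  open Classical in
  Finset.univ.biUnion fun l => (lamF_support_finite (aff_ne_zero x) (hα0 l) (hx l)).toFinset

theorem mem_Vx {q : ℕ} (α : Fin q → K × K) (hα0 : ∀ l, α l ≠ 0) (x : K) (hx : Off α x)
    (v : HeightOneSpectrum (𝓞 K)) : v ∈ Vx α hα0 x hx ↔ ∃ l, 0 < lamA (fv v) (aff x) (α l) := by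
  classical
  unfold Vx
  rw [Finset.mem_biUnion]
  constructor
  · rintro ⟨l, -, hl⟩
    rw [Set.Finite.mem_toFinset] at hl
    exact ⟨l, lt_of_le_of_ne (lamF_nonneg v (aff_ne_zero x) (hα0 l) (hx l)) (Ne.symm hl)⟩
  · rintro ⟨l, hl⟩
    refine ⟨l, Finset.mem_univ _, ?_⟩
    rw [Set.Finite.mem_toFinset]
    exact hl.ne'

open Classical in
theorem NT1_eq (T : Set (HeightOneSpectrum (𝓞 K))) {q : ℕ} (α : Fin q → K × K)
    (hα0 : ∀ l, α l ≠ 0) (x : K) (hx : Off α x) :
    NT1 T α x = ∑ v ∈ (Vx α hα0 x hx).filter (fun v => v ∉ T), Real.log (Nv v) := by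
  rw [← finsum_mem_coe_finset]
  unfold NT1
  refine finsum_congr fun v => ?_
  refine finsum_congr_Prop ?_ fun _ => rfl
  rw [Finset.mem_coe, Finset.mem_filter, mem_Vx]
  exact propext and_comm

open Classical in
theorem NTc_eq (T : Set (HeightOneSpectrum (𝓞 K))) {q : ℕ} (α : Fin q → K × K)
    (hα0 : ∀ l, α l ≠ 0) (x : K) (hx : Off α x) :
    NTc T α x = ∑ v ∈ (Vx α hα0 x hx).filter (fun v => v ∉ T),
      ∑ l : Fin q, min (lamA (fv v) (aff x) (α l)) (Real.log (Nv v)) := by
  unfold NTc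
  simp only [← Set.mem_compl_iff]
  rw [finsum_mem_eq_sum_of_inter_support_eq (t := (Vx α hα0 x hx).filter (fun v => v ∉ T))]
  · exact Finset.sum_congr rfl fun v _ => rfl
  ext v
  simp only [Set.mem_compl_iff, Set.mem_inter_iff, Function.mem_support, Finset.coe_filter,
    Set.mem_ofPred_eq]
  constructor
  · rintro ⟨hv1, hv2⟩
    refine ⟨⟨?_, hv1⟩, hv2⟩
    by_contra hcon
    apply hv2
    refine Finset.sum_eq_zero fun l _ => ?_
    have h1 : lamA (fv v) (aff x) (α l) = 0 := by
      refine le_antisymm ?_ (lamF_nonneg v (aff_ne_zero x) (hα0 l) (hx l))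
      by_contra h2
      push Not at h2
      exact hcon ((mem_Vx α hα0 x hx v).2 ⟨l, h2⟩)
    rw [h1]
    exact min_eq_left (log_Nv_pos v).le
  · rintro ⟨⟨_, hv1⟩, hv2⟩
    exact ⟨hv1, hv2⟩

theorem NT1_le_NTc (T : Set (HeightOneSpectrum (𝓞 K))) {q : ℕ} (α : Fin q → K × K)
    (hα0 : ∀ l, α l ≠ 0) (x : K) (hx : Off α x) : NT1 T α x ≤ NTc T α x := by
  classical
  rw [NT1_eq T α hα0 x hx, NTc_eq T α hα0 x hx]
  refine Finset.sum_le_sum fun v hv => ?_
  obtain ⟨l, hl⟩ := (mem_Vx α hα0 x hx v).1 (Finset.mem_filter.1 hv).1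
  have h1 : Real.log (Nv v) ≤ min (lamA (fv v) (aff x) (α l)) (Real.log (Nv v)) := by
    refine le_min ?_ le_rfl
    obtain ⟨m, hm⟩ := lamF_discrete v (aff_ne_zero x) (hα0 l) (hx l)
    have h2 := log_Nv_pos v
    rw [hm] at hl ⊢
    have h3 : 0 < m := by
      rcases Nat.eq_zero_or_pos m with h | h
      · rw [h, Nat.cast_zero, zero_mul] at hl
        exact absurd hl (lt_irrefl _)
      · exact h
    have h4 : (1 : ℝ) ≤ m := by exact_mod_cast h3
    nlinarith
  refine h1.trans (Finset.single_le_sum (f := fun l => min (lamA (fv v) (aff x) (α l))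
    (Real.log (Nv v))) (fun l _ => ?_) (Finset.mem_univ l))
  exact le_min (lamF_nonneg v (aff_ne_zero x) (hα0 l) (hx l)) (log_Nv_pos v).le

theorem NTc_le_NT1 (T : Set (HeightOneSpectrum (𝓞 K))) {q : ℕ} (α : Fin q → K × K)
    (hα0 : ∀ l, α l ≠ 0) (hα : ∀ i j, i ≠ j → wg (α i) (α j) ≠ 0) :
    ∃ C : ℝ, 0 ≤ C ∧ ∀ x : K, Off α x → NTc T α x ≤ NT1 T α x + C := by
  classical
  have hBfin : (⋃ l : Fin q, ⋃ j : Fin q, ⋃ _ : l ≠ j,
      {v : HeightOneSpectrum (𝓞 K) | lamA (fv v) (α l) (α j) ≠ 0}).Finite :=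
    Set.finite_iUnion fun l => Set.finite_iUnion fun j => Set.finite_iUnion fun hlj =>
      lamF_support_finite (hα0 l) (hα0 j) (hα l j hlj)
  set B : Finset (HeightOneSpectrum (𝓞 K)) := hBfin.toFinset with hB
  have hB0 : ∀ v, v ∉ B → ∀ i j : Fin q, i ≠ j → lamA (fv v) (α i) (α j) = 0 := by
    intro v hv i j hij
    rw [hB, Set.Finite.mem_toFinset] at hv
    simp only [Set.mem_iUnion, not_exists] at hv
    by_contra h
    exact hv i j hij h
  refine ⟨∑ v ∈ B, q * Real.log (Nv v), Finset.sum_nonneg fun v _ =>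
    mul_nonneg (Nat.cast_nonneg _) (log_Nv_pos v).le, fun x hx => ?_⟩
  rw [NT1_eq T α hα0 x hx, NTc_eq T α hα0 x hx]
  set F := (Vx α hα0 x hx).filter (fun v => v ∉ T) with hF
  have h1 : ∀ v ∈ F, ∑ l : Fin q, min (lamA (fv v) (aff x) (α l)) (Real.log (Nv v)) ≤
      Real.log (Nv v) + (if v ∈ B then (q : ℝ) * Real.log (Nv v) else 0) := by
    intro v _
    have hN := log_Nv_pos v
    split_ifs with hvB
    · have h2 : ∑ l : Fin q, min (lamA (fv v) (aff x) (α l)) (Real.log (Nv v)) ≤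
          ∑ l : Fin q, Real.log (Nv v) := Finset.sum_le_sum fun l _ => min_le_right _ _
      rw [Finset.sum_const, Finset.card_univ, Fintype.card_fin, nsmul_eq_mul] at h2
      linarith
    · rw [add_zero]
      by_cases hex : ∃ l, 0 < lamA (fv v) (aff x) (α l)
      · obtain ⟨l, hl⟩ := hex
        rw [Finset.sum_eq_single l]
        · exact min_le_right _ _
        · intro j _ hj
          have h3 : lamA (fv v) (aff x) (α j) = 0 := by
            refine le_antisymm ?_ (lamF_nonneg v (aff_ne_zero x) (hα0 j) (hx j))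
            by_contra h4
            push Not at h4
            set t := min (lamA (fv v) (aff x) (α l)) (lamA (fv v) (aff x) (α j)) with ht
            have ht0 : 0 < t := lt_min hl h4
            have h5 := lamA_ultra (fv v) (fv_na v) (p := α l) (q := aff x) (r := α j)
              (hα0 l) (aff_ne_zero x) (hα0 j) (hα l j (Ne.symm hj)) (wg_ne_comm (hx l))
              (hx j) t (by rw [lamA_comm]; exact min_le_left _ _) (min_le_right _ _)
            rw [hB0 v hvB l j (Ne.symm hj)] at h5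
            linarith
          rw [h3]
          exact min_eq_left hN.le
        · intro h
          exact absurd (Finset.mem_univ l) h
      · push Not at hex
        refine (Finset.sum_nonpos fun l _ => (min_le_left _ _).trans (hex l)).trans hN.le
  refine (Finset.sum_le_sum h1).trans ?_
  rw [Finset.sum_add_distrib]
  have h2 : ∑ v ∈ F, (if v ∈ B then (q : ℝ) * Real.log (Nv v) else 0) ≤
      ∑ v ∈ B, (q : ℝ) * Real.log (Nv v) := by
    rw [← Finset.sum_filter]
    refine Finset.sum_le_sum_of_subset_of_nonneg ?_ fun v _ _ =>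
      mul_nonneg (Nat.cast_nonneg _) (log_Nv_pos v).le
    intro v hv
    exact (Finset.mem_filter.1 hv).2
  linarith

end Pool.Agent.R479.DK
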